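import Mathlib
import Pool.Graph.R_pool_sql_team_ae5b0c61.H83.Tcc4

/-! Presentations with extra isolated points over the dense sequence: the heights over the `b`-th
point are the sums of `1 / 2 ^ (s + b + 1)` over sets of numbers `s` with `ev b s`. -/

set_option autoImplicit false

namespace Pool.Agent.KS6_32.TC

open Pool.Agent.H37 Pool.Agent.H83.Tcc Filter Topology

theorem ci_testBit {α : Type} [Primcodable α] {O : Set (ℕ →. ℕ)} {f g : α → ℕ} (hf : CI O f)
    (hg : CI O g) : CI O fun a => (f a).testBit (g a) := by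
  have : CI O fun a => decide (f a / 2 ^ g a % 2 = 1) := by fun_prop
  exact this.of_eq fun a => (Nat.testBit_eq_decide_div_mod_eq).symm

/-- the height coded by the binary digits of `m` -/
noncomputable def hh (ev : ℕ → ℕ → Bool) (b m : ℕ) : ℝ :=
  ∑ s ∈ Finset.range m, cond (m.testBit s && ev b s) (1 / 2 ^ (s + b + 1)) 0

theorem hh_eq (ev : ℕ → ℕ → Bool) (b : ℕ) {m M : ℕ} (h : m ≤ M) : hh ev b m =
    ∑ s ∈ Finset.range M, cond (m.testBit s && ev b s) ((1 : ℝ) / 2 ^ (s + b + 1)) 0 := by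
  refine Finset.sum_subset (Finset.range_mono h) fun s _ hs => ?_
  have : m.testBit s = false := Nat.testBit_lt_two_pow
    ((not_lt.1 (by simpa using hs)).trans_lt Nat.lt_two_pow_self)
  simp [this]

theorem hh_zero (ev : ℕ → ℕ → Bool) (b : ℕ) : hh ev b 0 = 0 := by simp [hh]

theorem hh_term (ev : ℕ → ℕ → Bool) (b m s : ℕ) :
    0 ≤ (cond (m.testBit s && ev b s) ((1 : ℝ) / 2 ^ (s + b + 1)) 0) ∧
      cond (m.testBit s && ev b s) ((1 : ℝ) / 2 ^ (s + b + 1)) 0 ≤ 1 / 2 ^ (s + b + 1) := by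
  cases (m.testBit s && ev b s)
  · simp only [cond_false]; exact ⟨le_rfl, by positivity⟩
  · simp only [cond_true]; exact ⟨by positivity, le_rfl⟩

theorem hh_nonneg (ev : ℕ → ℕ → Bool) (b m : ℕ) : 0 ≤ hh ev b m :=
  Finset.sum_nonneg fun s _ => (hh_term ev b m s).1

theorem hh_le (ev : ℕ → ℕ → Bool) (b m : ℕ) : hh ev b m ≤ 1 / 2 ^ b := by
  have key : ∀ M : ℕ, ∑ s ∈ Finset.range M, (1 : ℝ) / 2 ^ (s + b + 1) = 1 / 2 ^ b - 1 / 2 ^ (M + b) := by
    intro M
    induction M with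
    | zero => simp
    | succ M ih =>
      rw [Finset.sum_range_succ, ih]
      have : (1 : ℝ) / 2 ^ (M + b) = 2 * (1 / 2 ^ (M + 1 + b)) := by field_simp; ring
      rw [this, show M + b + 1 = M + 1 + b by ring]; ring
  refine (Finset.sum_le_sum fun s _ => (hh_term ev b m s).2).trans ?_
  rw [key]
  have : (0 : ℝ) ≤ 1 / 2 ^ (m + b) := by positivity
  linarith

/-- switching one digit -/
theorem hh_toggle (ev : ℕ → ℕ → Bool) (b m s : ℕ) (h : ev b s = true) :
    |hh ev b (m ^^^ 2 ^ s) - hh ev b m| = 1 / 2 ^ (s + b + 1) := by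
  have e0 : (0 : ℝ) < 1 / 2 ^ (s + b + 1) := by positivity
  rw [hh_eq ev b (show m ^^^ 2 ^ s ≤ (m ^^^ 2 ^ s) + m + s + 1 by omega),
    hh_eq ev b (show m ≤ (m ^^^ 2 ^ s) + m + s + 1 by omega), ← Finset.sum_sub_distrib,
    Finset.sum_eq_single s]
  · rw [Nat.testBit_xor, Nat.testBit_two_pow_self, h]
    cases m.testBit s
    · simp
    · simp
  · intro t _ ht
    rw [Nat.testBit_xor, Nat.testBit_two_pow_of_ne (Ne.symm ht)]
    simp
  · intro hs
    exact absurd (Finset.mem_range.2 (by omega)) hs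

theorem hh_fin (ev : ℕ → ℕ → Bool) (b : ℕ) (h : {s | ev b s = true}.Finite) :
    (Set.range (hh ev b)).Finite := by
  classical
  refine ((h.toFinset.powerset.finite_toSet).image fun T => ∑ s ∈ T, (1 : ℝ) / 2 ^ (s + b + 1)).subset
    ?_
  rintro _ ⟨m, rfl⟩
  refine ⟨h.toFinset.filter fun s => m.testBit s = true,
    Finset.mem_coe.2 (Finset.mem_powerset.2 (Finset.filter_subset _ _)), ?_⟩
  have hM : ∀ s ∈ h.toFinset, s ≤ h.toFinset.sup id := fun s hs =>
    Finset.le_sup (f := id) hs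
  rw [hh_eq ev b (show m ≤ m + h.toFinset.sup id + 1 by omega)]
  simp only [Bool.cond_eq_ite]
  rw [← Finset.sum_filter]
  refine Finset.sum_congr ?_ fun _ _ => rfl
  ext s
  simp only [Finset.mem_filter, Set.Finite.mem_toFinset, Set.mem_ofPred_eq, Finset.mem_range,
    Bool.and_eq_true]
  constructor
  · rintro ⟨h1, h2⟩
    have := hM s (by simpa using h1)
    exact ⟨by omega, h2, h1⟩
  · rintro ⟨-, h2, h1⟩
    exact ⟨h1, h2⟩

theorem fib (P : Pres) (hi : Function.Injective P.c) [Infinite P.Y]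
    (hden : ∀ (x : P.Y) (ε : ℝ), 0 < ε → ∃ i, dist i x < ε ∧ ∃ δ > 0, ∀ y, dist y i < δ → y = i)
    (ev : ℕ → ℕ → Bool) (hev : CI ∅ fun p : ℕ × ℕ => ev p.1 p.2)
    (hfin : ∀ b, {s | ev b s = true}.Finite) :
    ∃ (Q : Pres) (j : Q.Y → P.Y × ℝ), Nonempty (Q.Y ≃ₜ P.Y) ∧
      (∀ x y, dist x y = dist (j x) (j y)) ∧
      (∀ u, j (Q.c u) = (P.c u.unpair.1, hh ev u.unpair.1 u.unpair.2)) ∧
      ∀ y, (j y).2 = 0 ∨ ∃ b m, j y = (P.c b, hh ev b m) := by
  let Ys : Set (P.Y × ℝ) := {w | w.2 = 0 ∨ ∃ b m, w = (P.c b, hh ev b m)}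
  have big : ∀ ε > 0, {w ∈ Ys | ε ≤ |w.2|}.Finite := by
    intro ε hε
    obtain ⟨K, hK⟩ := eventually_atTop.1 (ev_lt 1 hε)
    refine ((Set.finite_le_nat K).biUnion (t := fun b => (fun r => (P.c b, r)) ''
      Set.range (hh ev b)) fun b _ => (hh_fin ev b (hfin b)).image _).subset ?_
    rintro w ⟨h | ⟨b, m, rfl⟩, h2⟩
    · rw [h, abs_zero] at h2; linarith
    · refine Set.mem_biUnion (x := b) (by_contra fun he => ?_) ⟨_, ⟨m, rfl⟩, rfl⟩
      have := hK b (by simp only [Set.mem_ofPred_eq] at he; omega)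
      rw [abs_of_nonneg (hh_nonneg ev b m)] at h2
      have h3 := hh_le ev b m
      linarith
  have hcl : IsClosed Ys := by
    rw [← isOpen_compl_iff, Metric.isOpen_iff]
    intro w hw
    have h0 : 0 < |w.2| := abs_pos.2 fun h => hw (Or.inl h)
    obtain ⟨δ, hδ, h⟩ := away (big _ (half_pos h0)) (z := w) fun h => hw h.1
    refine ⟨min δ (|w.2| / 2), by positivity, fun y hy hy' => ?_⟩
    rw [Metric.mem_ball, lt_min_iff] at hy
    refine h y hy.1 ⟨hy', ?_⟩
    have k1 : dist y.2 w.2 ≤ dist y w := by rw [Prod.dist_eq]; exact le_max_right _ _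
    have k2 := abs_sub_abs_le_abs_sub w.2 y.2
    rw [Real.dist_eq, abs_sub_comm] at k1
    linarith [hy.2]
  have : CompleteSpace Ys := hcl.completeSpace_coe
  have hht : CR fun u : ℕ => hh ev u.unpair.1 u.unpair.2 :=
    CR.sum (x := fun (u : ℕ) s => cond ((u.unpair.2).testBit s && ev u.unpair.1 s)
      ((1 : ℝ) / 2 ^ (s + u.unpair.1 + 1)) 0)
      (CR.cond (CI.and (ci_testBit (f := fun p : ℕ × ℕ => p.1.unpair.2) (g := fun p => p.2)
        (by fun_prop) (by fun_prop)) (hev.comp (g := fun p : ℕ × ℕ => (p.1.unpair.1, p.2)) (by fun_prop)))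
        (CR.inv2 (f := fun p : ℕ × ℕ => p.2 + p.1.unpair.1 + 1) (by fun_prop)) CR.zero)
      (N := fun u => u.unpair.2) (by fun_prop)
  let c' : ℕ → Ys := fun u => ⟨(P.c u.unpair.1, hh ev u.unpair.1 u.unpair.2),
    Or.inr ⟨_, _, rfl⟩⟩
  have hd : DenseRange c' := by
    rintro ⟨w, hw⟩
    rw [Metric.mem_closure_iff]
    intro ε hε
    rcases hw with h | ⟨b, m, rfl⟩
    · obtain ⟨i, hi⟩ := P.dense.exists_dist_lt w.1 hε
      refine ⟨_, ⟨Nat.pair i 0, rfl⟩, ?_⟩
      simp [c', Subtype.dist_eq, Prod.dist_eq, hh_zero, h, hi, hε]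
    · refine ⟨_, ⟨Nat.pair b m, rfl⟩, ?_⟩
      simp [c', hε]
  have hr : CR fun p : ℕ × ℕ => dist (c' p.1) (c' p.2) :=
    ((P.cr (f := fun p : ℕ × ℕ => p.1.unpair.1) (g := fun p => p.2.unpair.1) (by fun_prop)
      (by fun_prop)).max ((hht.comp (g := fun p : ℕ × ℕ => p.1) (by fun_prop)).sub
        (hht.comp (g := fun p : ℕ × ℕ => p.2) (by fun_prop))).abs).of_eq fun p => rfl
  have : TopologicalSpace.SeparableSpace Ys := ⟨⟨_, Set.countable_range c', hd⟩⟩
  obtain ⟨H⟩ := hotel (Y := Ys) {w | w.1.2 = 0} (fun w => ⟨(w.1.1, 0), Or.inl rfl⟩) (fun _ => rfl)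
    (isClosed_eq (by fun_prop) continuous_const) (fun x => by
      by_cases hx : ∃ b, P.c b = x.1.1
      · obtain ⟨b, hb⟩ := hx
        refine ((((hh_fin ev b (hfin b)).image fun r => (x.1.1, r)).insert (x.1.1, 0)).preimage
          Subtype.val_injective.injOn).subset ?_
        rintro ⟨w, hw⟩ h
        have h1 : w.1 = x.1.1 := congrArg (fun z : Ys => z.1.1) h
        rcases hw with h2 | ⟨b', m, rfl⟩
        · exact Or.inl (Prod.ext h1 h2)
        · have : b' = b := hi (h1.trans hb.symm)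
          subst this
          exact Or.inr ⟨_, ⟨m, rfl⟩, Prod.ext h1.symm rfl⟩
      · refine ((Set.finite_singleton (x.1.1, (0 : ℝ))).preimage
          Subtype.val_injective.injOn).subset ?_
        rintro ⟨w, hw⟩ h
        have h1 : w.1 = x.1.1 := congrArg (fun z : Ys => z.1.1) h
        rcases hw with h2 | ⟨b', m, rfl⟩
        · exact Prod.ext h1 h2
        · exact absurd ⟨b', h1⟩ hx)
    (fun ε hε => ((big ε hε).preimage Subtype.val_injective.injOn).subset fun w hw =>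
      ⟨w.2, by simpa [Subtype.dist_eq, Prod.dist_eq, Real.dist_eq] using hw⟩)
    (fun x hx ε hε => by
      obtain ⟨i, h1, δ, hδ, h2⟩ := hden x.1.1 ε hε
      have hx' : x.1.2 = 0 := hx
      refine ⟨⟨(i, 0), Or.inl rfl⟩, rfl, ?_, δ, hδ, fun y hy h3 => ?_⟩
      · simp [Subtype.dist_eq, Prod.dist_eq, hx', h1, hε]
      · refine Subtype.ext (Prod.ext (h2 _ ?_) hy)
        exact (le_max_left _ _).trans_lt h3)
    (Set.infinite_of_injective_forall_mem (f := fun x : P.Y => (⟨(x, 0), Or.inl rfl⟩ : Ys))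
      (fun a b e => congrArg (fun z : Ys => z.1.1) e) fun _ => rfl)
  exact ⟨Pres.mk' Ys c' hd hr, Subtype.val, ⟨H.trans
    { toFun := fun w => w.1.1.1
      invFun := fun x => ⟨⟨(x, 0), Or.inl rfl⟩, rfl⟩
      left_inv := fun w => Subtype.ext (Subtype.ext (Prod.ext rfl (Eq.symm w.2)))
      right_inv := fun _ => rfl
      continuous_toFun := by fun_prop
      continuous_invFun := by fun_prop }⟩, fun _ _ => rfl, fun _ => rfl, fun y => y.2⟩

end Pool.Agent.KS6_32.TC
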