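import Mathlib
import Pool.Agent.KS6_32.TC.Fib

/-! The base presentation, enumerations of c.e. sets, commitments relative to an oracle. -/

set_option autoImplicit false

namespace Pool.Agent.KS6_32.TC

open Pool.Agent.H37 Pool.Agent.H83.Tcc Filter Topology

/-- the isolated points of `X` are dense -/
def DenseIsolated (X : Type) [TopologicalSpace X] : Prop :=
  ∀ U : Set X, IsOpen U → U.Nonempty → ∃ x ∈ U, IsOpen ({x} : Set X)

theorem DenseIsolated.homeo {X Y : Type} [TopologicalSpace X] [TopologicalSpace Y]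
    (h : DenseIsolated X) (e : X ≃ₜ Y) : DenseIsolated Y := by
  intro U hU hne
  obtain ⟨x, hx, h1⟩ := h (e ⁻¹' U) (hU.preimage e.continuous) (by
    obtain ⟨y, hy⟩ := hne
    exact ⟨e.symm y, by simpa using hy⟩)
  refine ⟨e x, hx, ?_⟩
  have := e.isOpenMap _ h1
  rwa [Set.image_singleton] at this

theorem DenseIsolated.metric {Y : Type} [MetricSpace Y] (h : DenseIsolated Y) (x : Y) (ε : ℝ)
    (hε : 0 < ε) : ∃ i, dist i x < ε ∧ ∃ δ > 0, ∀ y, dist y i < δ → y = i := by
  obtain ⟨i, hi, h1⟩ := h (Metric.ball x ε) Metric.isOpen_ball ⟨x, Metric.mem_ball_self hε⟩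
  obtain ⟨δ, hδ, h2⟩ := Metric.isOpen_iff.1 h1 i rfl
  exact ⟨i, hi, δ, hδ, fun y hy => h2 hy⟩

theorem base (P : Pres) (hi : Function.Injective P.c) [Infinite P.Y]
    (hden : ∀ (x : P.Y) (ε : ℝ), 0 < ε → ∃ i, dist i x < ε ∧ ∃ δ > 0, ∀ y, dist y i < δ → y = i) :
    ∃ (N : Pres) (β : ℕ → ℕ), Function.Injective N.c ∧ Nonempty (N.Y ≃ₜ P.Y) ∧ CI ∅ β ∧
      Function.Injective β ∧ ∀ t y, dist y (N.c (β t)) < 1 / 2 ^ (t + 1) → y = N.c (β t) := by
  obtain ⟨N, j', bs', ⟨hN⟩, hbs', n1, n2, n3, n4, n5⟩ := twin P hi hden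
    (fun e _ => some (Nat.pair 0 (Nat.pair 1 e))) (by fun_prop)
    (fun e n n' v v' h h' => Option.some.inj (h.symm.trans h'))
  have etw : ∀ e, tw P e (Nat.pair 0 (Nat.pair 1 e)) = (P.c e, 1 / 2 ^ e) := fun e => by simp [tw]
  choose p hp using fun t => n5 t 0 _ rfl
  simp only [etw] at hp
  have jinj : Function.Injective j' := fun x y e => by
    rw [← dist_eq_zero, n1, e, dist_self]
  have iso : ∀ t y, dist y (p t) < 1 / 2 ^ (t + 1) → y = p t := by
    intro t y hy
    have h1 : |(j' y).2 - 1 / 2 ^ t| < 1 / 2 ^ (t + 1) := by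
      rw [n1, hp, Prod.dist_eq] at hy
      exact (le_max_right _ _).trans_lt hy
    have e1 : (1 : ℝ) / 2 ^ t = 2 * (1 / 2 ^ (t + 1)) := by field_simp; ring
    have e0 : (0 : ℝ) < 1 / 2 ^ (t + 1) := by positivity
    rw [abs_lt] at h1
    rcases n4 y with h | ⟨e, n, v, h, h2⟩
    · rw [h] at h1; linarith [h1.1]
    · rw [← Option.some.inj h, etw] at h2
      rw [h2] at h1
      rcases lt_trichotomy e t with k | k | k
      · have := inv2_le (show e + 1 ≤ t from k)
        have e2 : (1 : ℝ) / 2 ^ e = 2 * (1 / 2 ^ (e + 1)) := by field_simp; ring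
        linarith [h1.2]
      · exact jinj (by rw [h2, hp, k])
      · have := inv2_le (show t + 1 ≤ e from k)
        linarith [h1.1]
  haveI : Infinite N.Y := hN.toEquiv.infinite_iff.2 ‹_›
  obtain ⟨σ, hσ, hinj, hd⟩ := N.exists_inj
  have hr1 : CR fun q : ℕ × ℕ => dist (N.c (σ q.2)) (p q.1) :=
    ((P.cr (f := fun q : ℕ × ℕ => bs' (σ q.2)) (g := fun q => q.1) (by fun_prop)
      (by fun_prop)).max ((n3.comp (g := fun q : ℕ × ℕ => σ q.2) (by fun_prop)).sub
        (CR.inv2 (f := fun q : ℕ × ℕ => q.1) (by fun_prop))).abs).of_eq fun q => by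
      rw [n1, hp, Prod.dist_eq, n2, Real.dist_eq]
  obtain ⟨T, hT, a1, a2⟩ := hr1.test (k := fun q => q.1 + 4) (by fun_prop)
  obtain ⟨β, hβ, hβ'⟩ := CI.exists_choice (O := ∅) (p := fun t i : ℕ => T (t, i)) (by fun_prop)
    fun t => by
      obtain ⟨i, hi⟩ := hd.exists_dist_lt (p t) (show (0 : ℝ) < 1 / 2 ^ (t + 4) by positivity)
      refine ⟨i, a2 _ ?_⟩
      rw [dist_comm]
      exact hi.le
  have e : ∀ t, N.c (σ (β t)) = p t := fun t => by
    refine iso t _ ((a1 _ (hβ' t)).trans_lt ?_)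
    have e1 : (1 : ℝ) / 2 ^ (t + 1) = 8 * (1 / 2 ^ (t + 4)) := by field_simp; ring
    have e2 : (3 : ℝ) / 2 ^ (t + 4) = 3 * (1 / 2 ^ (t + 4)) := by ring
    have e0 : (0 : ℝ) < 1 / 2 ^ (t + 4) := by positivity
    simp only
    linarith
  refine ⟨N.sub σ hσ hd, β, hinj, ⟨hN⟩, hβ, fun s t h => ?_, fun t y hy => ?_⟩
  · have h1 : p s = p t := by rw [← e, ← e, h]
    have := congrArg (fun y => (j' y).1) h1
    simp only [hp] at this
    exact hi this
  · change y = N.c (σ (β t))
    rw [e]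
    refine iso t y ?_
    rw [← e]
    exact hy

theorem re_enum {V : Set ℕ} (h : REPred (· ∈ V)) : ∃ en : ℕ → ℕ → Bool,
    CI ∅ (fun p : ℕ × ℕ => en p.1 p.2) ∧ (∀ x, x ∈ V ↔ ∃ s, en x s = true) ∧
      ∀ x s s', en x s = true → en x s' = true → s = s' := by
  have h1 : Partrec fun a : ℕ => (Part.assert (a ∈ V) fun _ => Part.some ()).map fun _ => (0 : ℕ) :=
    h.map (Computable.const 0).to₂
  obtain ⟨c, hc⟩ := Nat.Partrec.Code.exists_code.1 (Partrec.nat_iff.1 h1)
  have hdom : ∀ x, x ∈ V ↔ ∃ k v, v ∈ Nat.Partrec.Code.evaln k c x := by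
    intro x
    have h2 : (c.eval x).Dom ↔ x ∈ V := by rw [hc]; simp [Part.assert]
    rw [← h2, Part.dom_iff_mem]
    constructor
    · rintro ⟨v, hv⟩
      obtain ⟨k, hk⟩ := Nat.Partrec.Code.evaln_complete.1 hv
      exact ⟨k, v, hk⟩
    · rintro ⟨k, v, hk⟩
      exact ⟨v, Nat.Partrec.Code.evaln_sound hk⟩
  refine ⟨fun x s => (Nat.Partrec.Code.evaln (s + 1) c x).isSome &&
    !(Nat.Partrec.Code.evaln s c x).isSome, by fun_prop, fun x => ?_, ?_⟩
  · rw [hdom]
    constructor
    · intro h3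
      classical
      have h4 := Nat.find_spec h3
      rcases hk : Nat.find h3 with _ | k
      · rw [hk] at h4
        obtain ⟨v, hv⟩ := h4
        simp [Nat.Partrec.Code.evaln] at hv
      · rw [hk] at h4
        have h5 := Nat.find_min h3 (m := k) (by omega)
        obtain ⟨v, hv⟩ := h4
        refine ⟨k, ?_⟩
        simp only [Bool.and_eq_true, Bool.not_eq_true', Option.isSome_iff_exists]
        refine ⟨⟨v, hv⟩, ?_⟩
        rcases hx : Nat.Partrec.Code.evaln k c x with _ | w
        · rfl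
        · exact absurd ⟨w, hx⟩ h5
    · rintro ⟨s, hs⟩
      simp only [Bool.and_eq_true, Option.isSome_iff_exists] at hs
      obtain ⟨⟨v, hv⟩, -⟩ := hs
      exact ⟨s + 1, v, hv⟩
  · have key : ∀ x s s', s < s' →
        ((Nat.Partrec.Code.evaln (s + 1) c x).isSome && !(Nat.Partrec.Code.evaln s c x).isSome) = true →
        ((Nat.Partrec.Code.evaln (s' + 1) c x).isSome &&
          !(Nat.Partrec.Code.evaln s' c x).isSome) = true → False := by
      intro x s s' hlt h3 h4
      simp only [Bool.and_eq_true, Bool.not_eq_true', Option.isSome_iff_exists] at h3 h4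
      obtain ⟨⟨v, hv⟩, -⟩ := h3
      have h5 : Nat.Partrec.Code.evaln s' c x = some v := Nat.Partrec.Code.evaln_mono hlt hv
      rw [h5] at h4
      simp at h4
    intro x s s' h3 h4
    rcases lt_trichotomy s s' with k | k | k
    · exact (key x s s' k h3 h4).elim
    · exact k
    · exact (key x s' s k h4 h3).elim

/-- `f` is computable relative to the oracles `O`: as `CompMap` of the library, with `Φ` computable
relative to `O`. -/
def CompMapIn (O : Set (ℕ →. ℕ)) (P Q : Pres) (f : P.Y → Q.Y) : Prop :=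
  ∃ Φ : List ℕ × ℕ → Option ℕ, CI O Φ ∧ ∀ x p, IsName P x p → ∀ l : ℕ,
    (∃ k j, Φ ((List.range k).map p, l) = some j) ∧
    ∀ k j, Φ ((List.range k).map p, l) = some j → dist (Q.c j) (f x) ≤ 1 / 2 ^ l

theorem CompMapIn.commit {O : Set (ℕ →. ℕ)} {P Q : Pres} {f : P.Y → Q.Y} (h : CompMapIn O P Q f) :
    ∃ (ok : ℕ → Bool) (ci ck cj cl : ℕ → ℕ), CI O ok ∧ CI O ci ∧ CI O ck ∧ CI O cj ∧ CI O cl ∧
    (∀ n, ok n = true → ∀ x, dist x (P.c (ci n)) ≤ 1 / 2 ^ ck n →
      dist (f x) (Q.c (cj n)) ≤ 1 / 2 ^ cl n) ∧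
    ∀ x l, ∃ n, ok n = true ∧ cl n = l ∧ dist x (P.c (ci n)) < 1 / 2 ^ (ck n + 2) := by
  obtain ⟨Φ, hΦ, h⟩ := h
  let D : ℕ → List ℕ × ℕ × ℕ := fun n => (Encodable.decode (α := List ℕ × ℕ × ℕ) n).getD ([], 0, 0)
  have hD : CI ∅ D := by fun_prop
  have hD' : CI O D := hD.of_empty
  obtain ⟨T, hT, T1, T2⟩ := (P.cr (f := fun p : ℕ × ℕ => (D p.1).1.getD p.2 0)
    (g := fun p => (D p.1).2.1) (by fun_prop) (by fun_prop)).test (k := fun p => p.2 + 2)
    (by fun_prop)
  have hT := hT.of_empty (O := O)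
  refine ⟨fun n => (Φ ((D n).1, (D n).2.2)).isSome &&
      (List.range (D n).1.length).all fun t => T (n, t), fun n => (D n).2.1,
    fun n => (D n).1.length + 2, fun n => (Φ ((D n).1, (D n).2.2)).getD 0, fun n => (D n).2.2,
    by fun_prop, by fun_prop, by fun_prop, by fun_prop, by fun_prop, ?_, ?_⟩
  · intro n hn x hx
    simp only [Bool.and_eq_true, List.all_eq_true, List.mem_range] at hn
    choose p0 hp0 using P.near x
    let p : ℕ → ℕ := fun t => if t < (D n).1.length then (D n).1.getD t 0 else p0 t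
    have hp : IsName P x p := by
      intro t
      by_cases ht : t < (D n).1.length
      · have k1 := T1 (n, t) (hn.2 t ht)
        have k2 : (1 : ℝ) / 2 ^ ((D n).1.length + 2) ≤ 1 / 2 ^ (t + 2) := inv2_le (by omega)
        have k3 := dist_triangle_right (P.c ((D n).1.getD t 0)) x (P.c (D n).2.1)
        have k4 : (1 : ℝ) / 2 ^ t = 3 / 2 ^ (t + 2) + 1 / 2 ^ (t + 2) := by field_simp; ring
        simp only [p, if_pos ht]
        simp only at k1 hx
        linarith
      · simp only [p, if_neg ht]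
        rw [dist_comm]; exact (hp0 t).le
    have e : (List.range (D n).1.length).map p = (D n).1 := by
      refine List.ext_getElem (by simp) fun t h1 h2 => ?_
      simp [p, h2]
    obtain ⟨j, hj⟩ := Option.isSome_iff_exists.1 hn.1
    have := (h x p hp (D n).2.2).2 (D n).1.length j (by rw [e]; exact hj)
    simp only [hj, Option.getD_some]
    rwa [dist_comm]
  · intro x l
    choose p0 hp0 using P.near x
    have hp : IsName P x fun t => p0 (t + 3) := fun t => by
      rw [dist_comm]; exact (hp0 _).le.trans (inv2_le (by omega))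
    obtain ⟨k, j, hj⟩ := (h x _ hp l).1
    have e : D (Encodable.encode ((List.range k).map (fun t => p0 (t + 3)), p0 (k + 4), l)) =
        ((List.range k).map (fun t => p0 (t + 3)), p0 (k + 4), l) := by
      simp only [D, Encodable.encodek, Option.getD_some]
    refine ⟨Encodable.encode ((List.range k).map (fun t => p0 (t + 3)), p0 (k + 4), l), ?_, ?_, ?_⟩
    · simp only [Bool.and_eq_true, List.all_eq_true, List.mem_range, e, hj, Option.isSome_some,
        true_and, List.length_map, List.length_range]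
      intro t ht
      apply T2
      simp only [e]
      have e2 : ((List.range k).map (fun t => p0 (t + 3))).getD t 0 = p0 (t + 3) := by simp [ht]
      rw [e2]
      have k1 := hp0 (t + 3)
      have k2 := hp0 (k + 4)
      have k3 : (1 : ℝ) / 2 ^ (k + 4) ≤ 1 / 2 ^ (t + 3) := inv2_le (by omega)
      have k4 := dist_triangle_left (P.c (p0 (t + 3))) (P.c (p0 (k + 4))) x
      have k5 : (1 : ℝ) / 2 ^ (t + 2) = 1 / 2 ^ (t + 3) + 1 / 2 ^ (t + 3) := by field_simp; ring
      linarith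
    · simp only [e]
    · simp only [e, List.length_map, List.length_range]
      exact hp0 _

end Pool.Agent.KS6_32.TC
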