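import Mathlib
import Pool.Graph.R_pool_sql_team_ae5b0c61.H83.Tcc5

/-! Programs attached to regions; partial commitments; tests for strict inequalities. -/

set_option autoImplicit false

namespace Pool.Agent.KS6_32.TC

open Pool.Agent.H37 Pool.Agent.H83.Tcc Filter Topology

/-- The region `t` is served by the program `t.unpair.1`, which is told `t`. -/
def G (t k n : ℕ) : Option ℕ := E t.unpair.1 (Nat.pair t k) n

@[fun_prop] theorem ci_G {α : Type} [Primcodable α] {f g h : α → ℕ} (hf : CI ∅ f) (hg : CI ∅ g)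
    (hh : CI ∅ h) : CI ∅ fun a => G (f a) (g a) (h a) := by
  unfold G; fun_prop

theorem G_mono {t k n n' v : ℕ} (h : G t k n = some v) (hn : n ≤ n') : G t k n' = some v :=
  E_mono h hn

/-- Commitments on a set. -/
def CommitOn (P Q : Pres) (S : Set P.Y) (f : P.Y → Q.Y) : Prop :=
  ∃ (ok : ℕ → Bool) (ci ck cj cl : ℕ → ℕ), CI ∅ ok ∧ CI ∅ ci ∧ CI ∅ ck ∧ CI ∅ cj ∧ CI ∅ cl ∧
    (∀ n, ok n = true → ∀ x ∈ S, dist x (P.c (ci n)) ≤ 1 / 2 ^ ck n →
      dist (f x) (Q.c (cj n)) ≤ 1 / 2 ^ cl n) ∧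
    ∀ x ∈ S, ∀ l, ∃ n, ok n = true ∧ cl n = l ∧ dist x (P.c (ci n)) < 1 / 2 ^ (ck n + 2)

theorem Commit.on {P Q : Pres} {f : P.Y → Q.Y} (h : Commit P Q f) (S : Set P.Y) :
    CommitOn P Q S f := by
  obtain ⟨ok, ci, ck, cj, cl, c1, c2, c3, c4, c5, c6, c7⟩ := h
  exact ⟨ok, ci, ck, cj, cl, c1, c2, c3, c4, c5, fun n hn x _ => c6 n hn x, fun x _ => c7 x⟩

theorem CommitOn.mk' {α : Type} [Primcodable α] [Inhabited α] {P Q : Pres} {S : Set P.Y}
    {f : P.Y → Q.Y} (ok : α → Bool) (ci ck cj cl : α → ℕ) (c1 : CI ∅ ok) (c2 : CI ∅ ci)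
    (c3 : CI ∅ ck) (c4 : CI ∅ cj) (c5 : CI ∅ cl)
    (c6 : ∀ n, ok n = true → ∀ x ∈ S, dist x (P.c (ci n)) ≤ 1 / 2 ^ ck n →
      dist (f x) (Q.c (cj n)) ≤ 1 / 2 ^ cl n)
    (c7 : ∀ x ∈ S, ∀ l, ∃ n, ok n = true ∧ cl n = l ∧ dist x (P.c (ci n)) < 1 / 2 ^ (ck n + 2)) :
    CommitOn P Q S f := by
  let D : ℕ → α := fun n => (Encodable.decode (α := α) n).getD default
  have hD : CI ∅ D := by fun_prop
  refine ⟨fun n => ok (D n), fun n => ci (D n), fun n => ck (D n), fun n => cj (D n),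
    fun n => cl (D n), by fun_prop, by fun_prop, by fun_prop, by fun_prop, by fun_prop,
    fun n => c6 (D n), fun x hx l => ?_⟩
  obtain ⟨a, h1, h2, h3⟩ := c7 x hx l
  have e : D (Encodable.encode a) = a := by simp only [D, Encodable.encodek, Option.getD_some]
  exact ⟨Encodable.encode a, by beta_reduce; rw [e]; exact h1, by beta_reduce; rw [e]; exact h2,
    by beta_reduce; rw [e]; exact h3⟩

/-- Composition of commitments. -/
theorem CommitOn.comp {P Q R : Pres} {S : Set P.Y} {S' : Set Q.Y} {f : P.Y → Q.Y} {g : Q.Y → R.Y}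
    (hf : CommitOn P Q S f) (hg : CommitOn Q R S' g) (hS : ∀ x ∈ S, f x ∈ S') :
    CommitOn P R S (g ∘ f) := by
  obtain ⟨ok, ci, ck, cj, cl, c1, c2, c3, c4, c5, c6, c7⟩ := hf
  obtain ⟨ok', ci', ck', cj', cl', d1, d2, d3, d4, d5, d6, d7⟩ := hg
  have e4 : ∀ k : ℕ, (1 : ℝ) / 2 ^ k = 16 * (1 / 2 ^ (k + 4)) := fun k => by field_simp; ring
  obtain ⟨T, hT, T1, T2⟩ := ((Q.cr (f := fun p : ℕ × ℕ => cj p.1) (g := fun p => ci' p.2)
    (by fun_prop) (by fun_prop)).sub (CR.inv2 (f := fun p : ℕ × ℕ => ck' p.2 + 2)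
      (by fun_prop))).test (k := fun p => ck' p.2 + 4) (by fun_prop)
  refine CommitOn.mk' (α := ℕ × ℕ)
    (fun p => ok p.1 && ok' p.2 && decide (cl p.1 = ck' p.2 + 4) && T p)
    (fun p => ci p.1) (fun p => ck p.1) (fun p => cj' p.2) (fun p => cl' p.2) (by fun_prop)
    (by fun_prop) (by fun_prop) (by fun_prop) (by fun_prop) ?_ ?_
  · intro p hp x hx hd
    simp only [Bool.and_eq_true, decide_eq_true_eq] at hp
    obtain ⟨⟨⟨h1, h2⟩, h3⟩, h4⟩ := hp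
    have k1 := c6 _ h1 x hx hd
    rw [h3] at k1
    have k2 := T1 _ h4
    refine d6 _ h2 (f x) (hS x hx) ?_
    have k3 := dist_triangle (f x) (Q.c (cj p.1)) (Q.c (ci' p.2))
    have k4 : (3 : ℝ) / 2 ^ (ck' p.2 + 4) = 3 * (1 / 2 ^ (ck' p.2 + 4)) := by ring
    have k5 : (1 : ℝ) / 2 ^ (ck' p.2 + 2) = 4 * (1 / 2 ^ (ck' p.2 + 4)) := by field_simp; ring
    have k6 : (0 : ℝ) < 1 / 2 ^ (ck' p.2 + 4) := by positivity
    rw [e4]
    linarith
  · intro x hx l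
    obtain ⟨m, h1, h2, h3⟩ := d7 (f x) (hS x hx) l
    obtain ⟨n, h4, h5, h6⟩ := c7 x hx (ck' m + 4)
    refine ⟨(n, m), ?_, h2, h6⟩
    have k1 := c6 n h4 x hx (h6.le.trans (inv2_le (by omega)))
    rw [h5] at k1
    have k2 := T2 (n, m) (by
      have := dist_triangle_left (Q.c (cj n)) (Q.c (ci' m)) (f x)
      simp only
      linarith)
    simp [h1, h4, h5, k2]

theorem lt_test {α : Type} [Primcodable α] {u v : α → ℝ} (hu : CR u) (hv : CR v) :
    ∃ T : α × ℕ → Bool, CI ∅ T ∧ (∀ t k, T (t, k) = true → u t < v t) ∧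
      ∀ t, u t < v t → ∃ k, T (t, k) = true := by
  obtain ⟨T, hT, T1, T2⟩ := (((hu.comp (g := fun p : α × ℕ => p.1) (by fun_prop)).sub
    (hv.comp (g := fun p : α × ℕ => p.1) (by fun_prop))).add
      ((CR.nat (f := fun _ : α × ℕ => 4) (by fun_prop)).mul
        (CR.inv2 (f := fun p : α × ℕ => p.2) (by fun_prop)))).test (k := fun p => p.2) (by fun_prop)
  refine ⟨T, hT, fun t k h => ?_, fun t h => ?_⟩
  · have k1 := T1 _ h
    have k2 : (3 : ℝ) / 2 ^ k = 3 * (1 / 2 ^ k) := by ring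
    have k3 : (0 : ℝ) < 1 / 2 ^ k := by positivity
    simp only at k1
    push_cast at k1
    linarith
  · obtain ⟨k, hk⟩ := (ev_lt 3 (sub_pos.2 h)).exists
    refine ⟨k, T2 _ ?_⟩
    have k2 : (3 : ℝ) / 2 ^ k = 3 * (1 / 2 ^ k) := by ring
    simp only
    push_cast
    linarith

end Pool.Agent.KS6_32.TC
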