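import Mathlib
import Pool.Agent.KS6_32.TC.GFam

/-! No computable injection near the centre of a class of regions (adapted from the library). -/

set_option autoImplicit false

namespace Pool.Agent.KS6_32.TC

open Pool.Agent.H37 Pool.Agent.H83.Tcc Filter Topology

theorem CommitOn.modulus {B M N : Pres} {f : M.Y → N.Y} {S : Set M.Y} (h : CommitOn M N S f)
    (hM : B.Y ≃ₜ M.Y) (m1 : ∀ i, M.c i = hM (B.c i)) (z l1 : ℕ)
    (hS : ∀ x, dist x (B.c z) ≤ 1 / 2 ^ l1 → hM x ∈ S) :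
    ∃ μ ν : ℕ → ℕ → ℕ, CI ∅ (fun p : ℕ × ℕ => μ p.1 p.2) ∧ CI ∅ (fun p : ℕ × ℕ => ν p.1 p.2) ∧
      (∀ i l x, dist (B.c i) (B.c z) ≤ 1 / 2 ^ l1 → x ∈ S → dist x (M.c i) ≤ 1 / 2 ^ μ i l →
        dist (f x) (N.c (ν i l)) ≤ 1 / 2 ^ l) ∧
      ∀ (y : ℕ → ℕ) z' l, Tendsto (fun n => M.c (y n)) atTop (𝓝 z') → z' ∈ S →
        ∃ m, ∀ᶠ n in atTop, μ (y n) l ≤ m := by
  obtain ⟨ok, ci, ck, cj, cl, c1, c2, c3, c4, c5, c6, c7⟩ := h
  obtain ⟨T, hT, T1, T2⟩ := (M.cr (f := fun p : ℕ × ℕ => p.1)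
    (g := fun p => ci p.2) (by fun_prop) (by fun_prop)).test (k := fun p => ck p.2 + 2) (by fun_prop)
  obtain ⟨TT, hTT, TT1, TT2⟩ := lt_test (CR.inv2 (f := fun _ : ℕ => l1) (by fun_prop))
    (B.cr (f := fun i : ℕ => i) (g := fun _ => z) (by fun_prop) (by fun_prop))
  have hex : ∀ a : ℕ × ℕ, ∃ n : ℕ, ((ok n.unpair.1 && decide (cl n.unpair.1 = a.2) &&
      T (a.1, n.unpair.1)) || TT (a.1, n.unpair.2)) = true := fun a => by
    by_cases ha : dist (B.c a.1) (B.c z) ≤ 1 / 2 ^ l1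
    · obtain ⟨n, h1, h2, h3⟩ := c7 (M.c a.1) (by rw [m1]; exact hS _ ha) a.2
      exact ⟨Nat.pair n 0, by simp [h1, h2, T2 (a.1, n) h3.le]⟩
    · obtain ⟨κ, h1⟩ := TT2 a.1 (not_le.1 ha)
      exact ⟨Nat.pair 0 κ, by simp [h1]⟩
  obtain ⟨F, hF, F1, F2⟩ : ∃ F : ℕ × ℕ → ℕ, CI ∅ F ∧
      (∀ a, ((ok (F a).unpair.1 && decide (cl (F a).unpair.1 = a.2) &&
        T (a.1, (F a).unpair.1)) || TT (a.1, (F a).unpair.2)) = true) ∧
      ∀ a n, ((ok n.unpair.1 && decide (cl n.unpair.1 = a.2) &&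
        T (a.1, n.unpair.1)) || TT (a.1, n.unpair.2)) = true → F a ≤ n :=
    ⟨_, CI.find (O := ∅) (p := fun (a : ℕ × ℕ) (n : ℕ) =>
      ((ok n.unpair.1 && decide (cl n.unpair.1 = a.2) &&
        T (a.1, n.unpair.1)) || TT (a.1, n.unpair.2)))
      (by fun_prop) hex, fun a => Nat.find_spec (hex a), fun a n h => Nat.find_min' (hex a) h⟩
  refine ⟨fun i l => ck (F (i, l)).unpair.1 + 2, fun i l => cj (F (i, l)).unpair.1,
    by fun_prop, by fun_prop, fun i l x hi hxS hx => ?_, fun y z l hz hzS => ?_⟩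
  · have k := F1 (i, l)
    simp only [Bool.and_eq_true, Bool.or_eq_true, decide_eq_true_eq] at k hx
    rcases k with k | k
    · have k1 := T1 _ k.2
      have k2 : (1 : ℝ) / 2 ^ ck (F (i, l)).unpair.1 = 3 / 2 ^ (ck (F (i, l)).unpair.1 + 2) +
        1 / 2 ^ (ck (F (i, l)).unpair.1 + 2) := by field_simp; ring
      have := c6 _ k.1.1 x hxS (by
        simp only at k1
        linarith [dist_triangle x (M.c i) (M.c (ci (F (i, l)).unpair.1))])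
      rwa [k.1.2] at this
    · exact absurd (TT1 _ _ k) (not_lt.2 hi)
  · obtain ⟨n, h1, h2, h3⟩ := c7 z hzS l
    refine ⟨(Finset.range (Nat.pair n 0 + 1)).sup ck + 2,
      ((hz.dist tendsto_const_nhds).eventually (gt_mem_nhds h3)).mono fun k hk => ?_⟩
    have h4 : F (y k, l) ≤ Nat.pair n 0 := F2 _ _ (by simp [h1, h2, T2 (y k, n) hk.le])
    have h5 := Nat.unpair_left_le (F (y k, l))
    exact Nat.add_le_add_right (Finset.le_sup (f := ck) (Finset.mem_range.2 (by omega))) 2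

theorem diagB {P N M : Pres} (hN : P.Y ≃ₜ N.Y) (n1 : ∀ i, N.c i = hN (P.c i))
    (n2 : ∀ x y, dist x y ≤ dist (hN x) (hN y)) (Zo : ℕ → ℕ → Option ℕ)
    (hZo : CI ∅ fun p : ℕ × ℕ => Zo p.1 p.2)
    (n3 : ∀ e n v, G e 0 n = some v → ∃ Z, (∀ n' Z', Zo e n' = some Z' → Z' = Z) ∧
      Zo e n = some Z ∧ ∀ y : ℕ → P.Y, (∀ k, dist (hN (y k)) (N.c v.unpair.1) < 1 / 2 ^ e) →
          (∀ k, dist (y k) (y (k + 1)) ≤ 2 / 2 ^ Z) →
          ∀ k, dist (y 0) (y k) ≤ 1 / 2 ^ v.unpair.2)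
    (hM : N.Y ≃ₜ M.Y) (m1 : ∀ i, M.c i = hM (N.c i)) (hi : Function.Injective N.c)
    (s ρ : ℕ → ℕ) (q : ℕ → ℕ → ℕ) (hs : CI ∅ s)
    (hq : CI ∅ fun p : ℕ × ℕ => q p.1 p.2)
    (r3 : ∀ e j, dist (N.c (q e j)) (N.c (s e)) ≤ 1 / 2 ^ (j + e + ρ e))
    (r4 : ∀ e j, s e < q e j)
    (m2 : ∀ e j m0 (μ : ℕ → ℕ),
      (∀ y n v, G e (y + 1) n = some v → v = Nat.pair j (μ y)) →
      (∀ y, dist (N.c y) (N.c (s e)) ≤ 1 / 2 ^ ρ e → ∃ n v, G e (y + 1) n = some v) →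
      (∀ y, m0 ≤ μ y) →
      ∃ y : ℕ → ℕ, y 0 = s e ∧ (∀ n, dist (N.c (y n)) (N.c (s e)) ≤ 1 / 2 ^ ρ e) ∧
        (∀ n, dist (M.c (y n)) (M.c (y (n + 1))) ≤ 2 / 2 ^ μ (y n)) ∧
        (∀ n, dist (M.c (y n)) (M.c (s e)) ≤ 1 / 2 ^ m0 + 1 / 2 ^ j) ∧
        ∃ z, Tendsto (fun n => M.c (y n)) atTop (𝓝 z) ∧
          ((∃ m, ∀ᶠ n in atTop, μ (y n) ≤ m) → ∃ K, dist (M.c (y K)) (M.c (q e j)) ≤ 2 / 2 ^ m0))
    (θ : ℕ → ℕ) (hθ : CI ∅ θ) (hθ1 : ∀ e, (θ e).unpair.1 = e) (z l1 : ℕ)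
    (near : ∀ e x, dist x (N.c (s (θ e))) ≤ 1 / 2 ^ ρ (θ e) → dist x (N.c z) ≤ 1 / 2 ^ l1)
    (S : Set M.Y) (hS : ∀ x, dist x (N.c z) ≤ 1 / 2 ^ l1 → hM x ∈ S)
    (f : M.Y → N.Y) (hf : Function.Injective f) (hc : CommitOn M N S f) : False := by
  obtain ⟨μ, ν, hμ, hν, a1, a2⟩ := hc.modulus hM m1 z l1 hS
  have inS : ∀ e x, dist x (N.c (s (θ e))) ≤ 1 / 2 ^ ρ (θ e) → hM x ∈ S := fun e x hx =>
    hS x (near e x hx)
  have ctr : ∀ e, dist (N.c (s (θ e))) (N.c (s (θ e))) ≤ 1 / 2 ^ ρ (θ e) := fun e => by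
    rw [dist_self]; positivity
  have qin : ∀ e j, dist (N.c (q (θ e) j)) (N.c (s (θ e))) ≤ 1 / 2 ^ ρ (θ e) := fun e j =>
    (r3 _ _).trans (inv2_le (by omega))
  have a0 : ∀ e i l, dist (N.c i) (N.c (s (θ e))) ≤ 1 / 2 ^ ρ (θ e) →
      dist (hN.symm (f (M.c i))) (P.c (ν i l)) ≤ 1 / 2 ^ l := fun e i l hi => by
    refine (n2 _ _).trans ?_
    rw [Homeomorph.apply_symm_apply, ← n1]
    exact a1 i l _ (near e _ hi) (by rw [m1]; exact inS e _ hi) (by rw [dist_self]; positivity)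
  let k0 : ℕ → ℕ := fun e => μ (s (θ e)) (θ e + 2)
  have hk0 : CI ∅ k0 := ci2 hμ (by fun_prop) (by fun_prop)
  let qq : ℕ → ℕ := fun e => q (θ e) (k0 e + 1)
  have hqq : CI ∅ qq := ci2 hq (by fun_prop) (by fun_prop)
  obtain ⟨T, hT, T1, T2⟩ := (P.cr (f := fun p : ℕ × ℕ => ν (s (θ p.1)) (p.2 + 2))
    (g := fun p => ν (qq p.1) (p.2 + 2)) (ci2 hν (by fun_prop) (by fun_prop))
    (ci2 hν (by fun_prop) (by fun_prop))).test (k := fun p => p.2) (by fun_prop)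
  obtain ⟨w, hw, k1⟩ := CI.exists_choice (O := ∅) (p := fun e w : ℕ => !T (e, w)) (by fun_prop)
    fun e => by
      have hne : hN.symm (f (M.c (s (θ e)))) ≠ hN.symm (f (M.c (qq e))) := fun h => by
        have := hf (hN.symm.injective h)
        rw [m1, m1] at this
        exact (r4 _ _).ne (hi (hM.injective this))
      obtain ⟨w, hw⟩ := (ev_lt 4 (dist_pos.2 hne)).exists
      refine ⟨w, ?_⟩
      cases hT' : T (e, w)
      · rfl
      have b1 := T1 _ hT'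
      have b2 := a0 e (s (θ e)) (w + 2) (ctr e)
      have b3 := a0 e (qq e) (w + 2) (qin e _)
      have b4 := dist_triangle4 (hN.symm (f (M.c (s (θ e))))) (P.c (ν (s (θ e)) (w + 2)))
        (P.c (ν (qq e) (w + 2))) (hN.symm (f (M.c (qq e))))
      have b5 : (4 : ℝ) / 2 ^ w = 16 * (1 / 2 ^ (w + 2)) := by field_simp; ring
      have b6 : (3 : ℝ) / 2 ^ w = 12 * (1 / 2 ^ (w + 2)) := by field_simp; ring
      have b7 : (0 : ℝ) < 1 / 2 ^ (w + 2) := by positivity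
      rw [dist_comm (P.c (ν (qq e) (w + 2)))] at b4
      simp only at b1
      linarith
  let m0 : ℕ → ℕ := fun e => k0 e + μ (qq e) (w e + 2) + 1
  have hm0 : CI ∅ m0 := by
    have : CI ∅ fun e => μ (qq e) (w e + 2) := ci2 hμ hqq (by fun_prop)
    fun_prop
  obtain ⟨e, he⟩ := diag (fun e x n => cond (x.unpair.2 == 0)
    (some (Nat.pair (ν (s (θ e)) (θ e + 2)) (w e + 2)))
    ((Zo (θ e) n).map fun Z => Nat.pair (k0 e + 1) (μ (x.unpair.2 - 1) Z + 1 + m0 e)))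
    (CI.cond (by fun_prop) (CI.some (CI.pair (ci2 hν (by fun_prop) (by fun_prop)) (by fun_prop)))
      (CI.optMap (CI.pair (by fun_prop) (CI.add (CI.add (ci2 hμ (by fun_prop) (by fun_prop))
        (by fun_prop)) (by fun_prop)))
        (hZo.comp (g := fun p : ℕ × ℕ × ℕ => (θ p.1, p.2.2)) (by fun_prop))))
  have hG : ∀ k n, G (θ e) k n = E e (Nat.pair (θ e) k) n := fun k n => by
    simp only [G, hθ1]
  obtain ⟨n, v, hv⟩ := (he (Nat.pair (θ e) 0)).2 0 _ (by simp only [Nat.unpair_pair]; rfl)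
  obtain ⟨n', hv'⟩ := (he (Nat.pair (θ e) 0)).1 n v hv
  simp only [Nat.unpair_pair] at hv'
  obtain rfl : Nat.pair (ν (s (θ e)) (θ e + 2)) (w e + 2) = v := Option.some.inj hv'
  obtain ⟨Z, z1, z2, z3⟩ := n3 (θ e) n _ ((hG 0 n).trans hv)
  simp only [Nat.unpair_pair] at z3
  obtain ⟨y, y0, yin, y1, y2, z', y3, y4⟩ := m2 (θ e) (k0 e + 1) (m0 e) (fun y => μ y Z + 1 + m0 e)
    (fun y n v h => by
      rw [hG] at h
      obtain ⟨n', h'⟩ := (he _).1 n v h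
      simp only [Nat.unpair_pair] at h'
      obtain ⟨Z', h1, rfl⟩ := Option.map_eq_some_iff.1 h'
      rw [z1 _ _ h1]; rfl)
    (fun y _ => by
      simp only [hG]
      exact (he (Nat.pair (θ e) (y + 1))).2 n _ (by
        simp only [Nat.unpair_pair]
        change (Zo (θ e) n).map _ = _
        rw [z2]; rfl)) (fun y => by omega)
  have hz' : z' ∈ S := by
    have h1 : Tendsto (fun n => N.c (y n)) atTop (𝓝 (hM.symm z')) := by
      have := (hM.symm.continuous.tendsto z').comp y3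
      simpa only [Function.comp_def, m1, hM.symm_apply_apply] using this
    have h2 : dist (hM.symm z') (N.c (s (θ e))) ≤ 1 / 2 ^ ρ (θ e) :=
      le_of_tendsto (h1.dist tendsto_const_nhds) (Eventually.of_forall yin)
    have := inS e _ h2
    rwa [hM.apply_symm_apply] at this
  have yS : ∀ k, M.c (y k) ∈ S := fun k => by rw [m1]; exact inS e _ (yin k)
  obtain ⟨m, hm⟩ := a2 y z' Z y3 hz'
  obtain ⟨K, hK⟩ := y4 ⟨m + 1 + m0 e, hm.mono fun n h => by omega⟩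
  have b0 := z3 (fun k => hN.symm (f (M.c (y k)))) (fun k => by
    rw [Homeomorph.apply_symm_apply]
    refine (a1 (s (θ e)) (θ e + 2) _ (near e _ (ctr e)) (yS k) ((y2 k).trans ?_)).trans_lt ?_
    · have b1 : (1 : ℝ) / 2 ^ m0 e ≤ 1 / 2 ^ (k0 e + 1) := inv2_le (by simp only [m0]; omega)
      have b2 : (1 : ℝ) / 2 ^ k0 e = 2 * (1 / 2 ^ (k0 e + 1)) := by field_simp; ring
      change _ ≤ (1 : ℝ) / 2 ^ k0 e
      linarith
    · exact one_div_lt_one_div_of_lt (by positivity) (pow_lt_pow_right₀ one_lt_two (by omega)))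
    (fun k => by
      refine (n2 _ _).trans ?_
      rw [Homeomorph.apply_symm_apply, Homeomorph.apply_symm_apply]
      have b1 := a1 (y k) Z (M.c (y k)) (near e _ (yin k)) (yS k) (by rw [dist_self]; positivity)
      have b2 := a1 (y k) Z (M.c (y (k + 1))) (near e _ (yin k)) (yS (k + 1)) (by
        rw [dist_comm]
        refine (y1 k).trans ?_
        have b3 : (1 : ℝ) / 2 ^ (μ (y k) Z + 1 + m0 e) ≤ 1 / 2 ^ (μ (y k) Z + 1) := inv2_le (by omega)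
        have b4 : (1 : ℝ) / 2 ^ μ (y k) Z = 2 * (1 / 2 ^ (μ (y k) Z + 1)) := by field_simp; ring
        have b5 : (2 : ℝ) / 2 ^ (μ (y k) Z + 1 + m0 e) = 2 * (1 / 2 ^ (μ (y k) Z + 1 + m0 e)) := by
          ring
        linarith)
      have b3 : (2 : ℝ) / 2 ^ Z = 1 / 2 ^ Z + 1 / 2 ^ Z := by ring
      linarith [dist_triangle_right (f (M.c (y k))) (f (M.c (y (k + 1)))) (N.c (ν (y k) Z))]) K
  simp only [y0] at b0
  have b1 : dist (hN.symm (f (M.c (y K)))) (P.c (ν (qq e) (w e + 2))) ≤ 1 / 2 ^ (w e + 2) := by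
    refine (n2 _ _).trans ?_
    rw [Homeomorph.apply_symm_apply, ← n1]
    refine a1 _ _ _ (near e _ (qin e _)) (yS K) (hK.trans ?_)
    have b3 : (1 : ℝ) / 2 ^ m0 e ≤ 1 / 2 ^ (μ (qq e) (w e + 2) + 1) :=
      inv2_le (by simp only [m0]; omega)
    have b4 : (1 : ℝ) / 2 ^ μ (qq e) (w e + 2) = 2 * (1 / 2 ^ (μ (qq e) (w e + 2) + 1)) := by
      field_simp; ring
    have b5 : (2 : ℝ) / 2 ^ m0 e = 2 * (1 / 2 ^ m0 e) := by ring
    change _ ≤ (1 : ℝ) / 2 ^ μ (qq e) (w e + 2)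
    linarith
  have b2 := a0 e (s (θ e)) (w e + 2) (ctr e)
  have b3 : ¬ dist (P.c (ν (s (θ e)) (w e + 2))) (P.c (ν (qq e) (w e + 2))) ≤ 1 / 2 ^ w e :=
    fun h => by
      have := k1 e
      rw [T2 (e, w e) h] at this
      exact absurd this (by decide)
  have b4 := dist_triangle4 (P.c (ν (s (θ e)) (w e + 2))) (hN.symm (f (M.c (s (θ e)))))
    (hN.symm (f (M.c (y K)))) (P.c (ν (qq e) (w e + 2)))
  have b5 : (1 : ℝ) / 2 ^ w e = 4 * (1 / 2 ^ (w e + 2)) := by field_simp; ring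
  have b7 : (0 : ℝ) < 1 / 2 ^ (w e + 2) := by positivity
  rw [dist_comm (P.c (ν (s (θ e)) (w e + 2))) (hN.symm _)] at b4
  exact b3 (by linarith)

end Pool.Agent.KS6_32.TC
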