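import Mathlib
import Pool.Agent.KS6_32.TC.GFam

/-! Recovering a point from its perturbed coordinates. -/

set_option autoImplicit false

namespace Pool.Agent.KS6_32.TC

open Pool.Agent.H37 Pool.Agent.H83.Tcc Filter Topology

theorem id_commit {P M : Pres} (h : P.Y ≃ₜ M.Y) (S : Set P.Y) (τ : ℕ → P.Y → ℝ) (V : ℕ → ℕ → ℝ)
    (b : ℕ → ℕ) (F : P.Y → ℕ → ℝ) (hb : CI ∅ b) (hF : CR fun p : ℕ × ℕ => F (P.c p.1) p.2)
    (hτ : CR fun p : ℕ × ℕ => τ p.1 (P.c p.2)) (hV : CR fun p : ℕ × ℕ => V p.1 p.2)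
    (Vb : ∀ n a, |V n a| ≤ 1) (dF : ∀ x i a, |F x a - F (P.c i) a| ≤ dist (h x) (M.c i))
    (dτ : ∀ x i n, |τ n x - τ n (P.c i)| ≤ 2 ^ b n * dist (h x) (M.c i))
    (eq : ∀ x ∈ S, ∀ N, (∀ n, N ≤ n → τ n x = 0) → ∀ a,
      F x a = dl P a x + ∑ n ∈ Finset.range N, τ n x * V n a)
    (CT T2 : (ℕ × ℕ × ℕ) × ℕ × ℕ → Bool) (hCT : CI ∅ CT) (hT2 : CI ∅ T2)
    (sCT : ∀ i k N l κ, CT ((i, k, N), l, κ) = true → ∀ x ∈ S, dist (h x) (M.c i) ≤ 1 / 2 ^ k →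
      ∀ n, N ≤ n → τ n x = 0)
    (sT2 : ∀ i k n l κ, T2 ((i, k, n), l, κ) = true → ∀ x ∈ S, dist (h x) (M.c i) ≤ 1 / 2 ^ k →
      dist x (P.c n) ≤ 1 / 2 ^ l)
    (com : ∀ x ∈ S, (∃ N, (∀ n, N ≤ n → τ n x = 0) ∧ ∀ᶠ k : ℕ in atTop, ∀ i,
        dist (h x) (M.c i) < 1 / 2 ^ (k + 2) → ∃ κ, CT ((i, k, N), 0, κ) = true) ∨
      ∀ l, ∃ n, ∀ᶠ k : ℕ in atTop, ∀ i, dist (h x) (M.c i) < 1 / 2 ^ (k + 2) →
        ∃ κ, T2 ((i, k, n), l, κ) = true) :
    CommitOn M P (h '' S) h.symm := by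
  let C : ℕ → ℕ := fun N => ((List.range N).map fun n => b n + 1).sum
  have hC : CI ∅ C := by fun_prop
  have C1 : ∀ N, (1 : ℝ) + ∑ n ∈ Finset.range N, 2 ^ b n ≤ 2 ^ C N := by
    intro N
    induction N with
    | zero => simp [C]
    | succ N ih =>
      have e1 : C (N + 1) = C N + (b N + 1) := by simp [C, List.range_succ]; omega
      rw [Finset.sum_range_succ, e1, pow_add, pow_succ]
      have k1 : (1 : ℝ) ≤ 2 ^ C N := one_le_pow₀ one_le_two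
      have k2 : (1 : ℝ) ≤ 2 ^ b N := one_le_pow₀ one_le_two
      nlinarith
  let D : ℕ × ℕ × ℕ → ℝ := fun p => F (P.c p.1) p.2.2 -
    ∑ n ∈ Finset.range p.2.1, τ n (P.c p.1) * V n p.2.2
  have hD : CR D := (hF.comp (g := fun p : ℕ × ℕ × ℕ => (p.1, p.2.2)) (by fun_prop)).sub
    (CR.sum (x := fun (p : ℕ × ℕ × ℕ) n => τ n (P.c p.1) * V n p.2.2)
      ((hτ.comp (g := fun p : (ℕ × ℕ × ℕ) × ℕ => (p.2, p.1.1)) (by fun_prop)).mul
        (hV.comp (g := fun p : (ℕ × ℕ × ℕ) × ℕ => (p.2, p.1.2.2)) (by fun_prop)))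
      (N := fun p => p.2.1) (by fun_prop))
  have key : ∀ x ∈ S, ∀ i N a, (∀ n, N ≤ n → τ n x = 0) →
      |dl P a x - D (i, N, a)| ≤ 2 ^ C N * dist (h x) (M.c i) := by
    intro x hx i N a hN
    have k1 := eq x hx N hN a
    have k2 : dl P a x - D (i, N, a) = (F x a - F (P.c i) a) -
        ∑ n ∈ Finset.range N, (τ n x - τ n (P.c i)) * V n a := by
      simp only [D, _root_.sub_mul, Finset.sum_sub_distrib]
      linarith
    rw [k2]
    have k3 : |∑ n ∈ Finset.range N, (τ n x - τ n (P.c i)) * V n a| ≤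
        ∑ n ∈ Finset.range N, 2 ^ b n * dist (h x) (M.c i) := by
      refine (Finset.abs_sum_le_sum_abs _ _).trans (Finset.sum_le_sum fun n _ => ?_)
      rw [abs_mul]
      calc _ ≤ 2 ^ b n * dist (h x) (M.c i) * 1 := by
            gcongr
            · exact dτ x i n
            · exact Vb n a
        _ = _ := mul_one _
    have k4 := dF x i a
    rw [← Finset.sum_mul] at k3
    have k5 := abs_sub (F x a - F (P.c i) a) (∑ n ∈ Finset.range N, (τ n x - τ n (P.c i)) * V n a)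
    have k6 := mul_le_mul_of_nonneg_right (C1 N) (dist_nonneg (x := h x) (y := M.c i))
    linarith
  obtain ⟨TA, hTA, A1, A2⟩ := lt_test (α := (ℕ × ℕ × ℕ) × ℕ × ℕ)
    (u := fun p => D (p.1.1, p.1.2.2, p.2.1) + 2 ^ C p.1.2.2 * (1 / 2 ^ p.1.2.1))
    (v := fun p => 1 / 2 ^ p.2.2)
    ((hD.comp (g := fun p : (ℕ × ℕ × ℕ) × ℕ × ℕ => (p.1.1, p.1.2.2, p.2.1)) (by fun_prop)).add
      ((CR.pow2 (by fun_prop)).mul (CR.inv2 (by fun_prop)))) (CR.inv2 (by fun_prop))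
  obtain ⟨TB, hTB, B1, B2⟩ := lt_test (α := (ℕ × ℕ × ℕ) × ℕ)
    (u := fun p => D (p.1.1, p.1.2.2, p.2) + 2 * (2 ^ C p.1.2.2 * (1 / 2 ^ p.1.2.1)))
    (v := fun p => D (p.1.1, p.1.2.2, p.2 - 1))
    ((hD.comp (g := fun p : (ℕ × ℕ × ℕ) × ℕ => (p.1.1, p.1.2.2, p.2)) (by fun_prop)).add
      (CR.two.mul ((CR.pow2 (by fun_prop)).mul (CR.inv2 (by fun_prop)))))
    (hD.comp (g := fun p : (ℕ × ℕ × ℕ) × ℕ => (p.1.1, p.1.2.2, p.2 - 1)) (by fun_prop))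
  refine CommitOn.mk' (α := Bool × (ℕ × ℕ × ℕ) × (ℕ × ℕ) × (ℕ × ℕ × ℕ))
    (fun p => cond p.1 (CT (p.2.1, 0, p.2.2.2.1) && TA ((p.2.1, p.2.2.1), p.2.2.2.2.1) &&
      (decide (p.2.2.1.1 = 0) || TB ((p.2.1, p.2.2.1.1), p.2.2.2.2.2)))
      (T2 (p.2.1, p.2.2.1.2, p.2.2.2.1)))
    (fun p => p.2.1.1) (fun p => p.2.1.2.1) (fun p => cond p.1 p.2.2.1.1 p.2.1.2.2)
    (fun p => p.2.2.1.2) (by fun_prop) (by fun_prop) (by fun_prop) (by fun_prop) (by fun_prop) ?_ ?_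
  · rintro ⟨fl, ⟨i, k, N⟩, ⟨j, l⟩, κ1, κ2, κ3⟩ hok _ ⟨x, hx, rfl⟩ hd
    simp only at hok hd ⊢
    rw [h.symm_apply_apply]
    cases fl
    · exact sT2 _ _ _ _ _ hok x hx hd
    simp only [cond_true, Bool.and_eq_true, Bool.or_eq_true, decide_eq_true_eq] at hok ⊢
    obtain ⟨⟨h2, h3⟩, h4⟩ := hok
    have hN := sCT _ _ _ _ _ h2 x hx hd
    have k0 : (2 : ℝ) ^ C N * dist (h x) (M.c i) ≤ 2 ^ C N * (1 / 2 ^ k) := by gcongr
    have k1 := abs_le.1 ((key x hx i N j hN).trans k0)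
    have k2 := A1 _ _ h3
    simp only at k2
    have k3 : dl P j x < 1 / 2 ^ l := by linarith [k1.2]
    suffices hj : dl P j x = dist x (P.c j) by rw [← hj]; exact k3.le
    obtain ⟨s, hs, hs'⟩ := dl_eq P j x
    rcases hs.lt_or_eq with hs1 | rfl
    · rcases h4 with rfl | h4
      · omega
      have k4 := B1 _ _ h4
      simp only at k4
      have k5 := abs_le.1 ((key x hx i N (j - 1) hN).trans k0)
      have k6 := dl_le P (show s ≤ j - 1 by omega) x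
      linarith [k1.2, k5.1]
    · exact hs'
  · rintro _ ⟨x, hx, rfl⟩ l
    rcases com x hx with ⟨N, hN, hk⟩ | hk
    · obtain ⟨j, hj1, hj2⟩ : ∃ j, dl P j x < 1 / 2 ^ l ∧ (j = 0 ∨ dl P j x < dl P (j - 1) x) := by
        classical
        have hex : ∃ j, dl P j x < 1 / 2 ^ l := by
          obtain ⟨i, hi⟩ := P.near x l
          exact ⟨i, (dl_le P le_rfl x).trans_lt hi⟩
        refine ⟨Nat.find hex, Nat.find_spec hex, ?_⟩
        rcases Nat.eq_zero_or_pos (Nat.find hex) with h0 | h0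
        · exact Or.inl h0
        · exact Or.inr ((Nat.find_spec hex).trans_le (not_lt.1 (Nat.find_min hex
            (show Nat.find hex - 1 < Nat.find hex by omega))))
      have e1 : ∀ᶠ k : ℕ in atTop, dl P j x + 4 * (2 ^ C N * (1 / 2 ^ k)) < 1 / 2 ^ l :=
        (ev_lt (4 * 2 ^ C N) (sub_pos.2 hj1)).mono fun k hk => by
          have : (4 : ℝ) * (2 ^ C N * (1 / 2 ^ k)) = 4 * 2 ^ C N / 2 ^ k := by ring
          linarith
      have e2 : ∀ᶠ k : ℕ in atTop, j = 0 ∨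
          dl P j x + 4 * (2 ^ C N * (1 / 2 ^ k)) < dl P (j - 1) x := by
        rcases hj2 with h0 | h0
        · exact Eventually.of_forall fun _ => Or.inl h0
        · exact (ev_lt (4 * 2 ^ C N) (sub_pos.2 h0)).mono fun k hk => Or.inr (by
            have : (4 : ℝ) * (2 ^ C N * (1 / 2 ^ k)) = 4 * 2 ^ C N / 2 ^ k := by ring
            linarith)
      obtain ⟨k, ⟨hk1, hk2⟩, hk3⟩ := ((e1.and e2).and hk).exists
      obtain ⟨i, hi⟩ := M.near (h x) (k + 2)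
      obtain ⟨κ1, h2⟩ := hk3 i hi
      have hi' : dist (h x) (M.c i) ≤ 1 / 2 ^ k := hi.le.trans (inv2_le (by omega))
      have k0 : (2 : ℝ) ^ C N * dist (h x) (M.c i) ≤ 2 ^ C N * (1 / 2 ^ k) := by gcongr
      have k00 : (0 : ℝ) < 2 ^ C N * (1 / 2 ^ k) := by positivity
      have k1 := abs_le.1 ((key x hx i N j hN).trans k0)
      obtain ⟨κ2, h3⟩ := A2 ((i, k, N), j, l) (by simp only; linarith [k1.1])
      obtain ⟨κ3, h4⟩ : ∃ κ3, (decide (j = 0) || TB (((i, k, N), j), κ3)) = true := by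
        rcases hk2 with h0 | h0
        · exact ⟨0, by simp [h0]⟩
        · have k5 := abs_le.1 ((key x hx i N (j - 1) hN).trans k0)
          obtain ⟨κ3, h4⟩ := B2 ((i, k, N), j) (by simp only; linarith [k1.1, k5.2])
          exact ⟨κ3, by simp [h4]⟩
      exact ⟨(true, (i, k, N), (j, l), κ1, κ2, κ3), by simp only [cond_true, h2, h3, h4]; rfl, rfl,
        hi⟩
    · obtain ⟨n, hn⟩ := hk l
      obtain ⟨k, hk⟩ := hn.exists
      obtain ⟨i, hi⟩ := M.near (h x) (k + 2)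
      obtain ⟨κ, h2⟩ := hk i hi
      exact ⟨(false, (i, k, n), (0, l), κ, 0, 0), h2, rfl, hi⟩

end Pool.Agent.KS6_32.TC
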