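import Mathlib
import Pool.Agent.KS6_32.TC.GFam

/-! Regions accumulating at finitely many points (adapted from the library). -/

set_option autoImplicit false

namespace Pool.Agent.KS6_32.TC

open Pool.Agent.H37 Pool.Agent.H83.Tcc Filter Topology

theorem regions (P : Pres) (hi : Function.Injective P.c) (i0 R0 : ℕ)
    (hni : ∀ x, dist x (P.c i0) ≤ 1 / 2 ^ R0 → ∀ ε > 0, ∀ σ, ∃ n > σ, dist (P.c n) x < ε) :
    ∃ (s ρ : ℕ → ℕ) (q : ℕ → ℕ → ℕ), CI ∅ s ∧ CI ∅ ρ ∧ CI ∅ (fun p : ℕ × ℕ => q p.1 p.2) ∧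
      (∀ e e' x, dist x (P.c (s e)) ≤ 1 / 2 ^ ρ e → dist x (P.c (s e')) ≤ 1 / 2 ^ ρ e' → e = e') ∧
      (∀ e x, dist x (P.c (s e)) ≤ 1 / 2 ^ ρ e → ∀ ε > 0, ∀ σ, ∃ n > σ, dist (P.c n) x < ε) ∧
      (∀ e j, dist (P.c (q e j)) (P.c (s e)) ≤ 1 / 2 ^ (j + e + ρ e)) ∧ (∀ e j, s e < q e j) ∧
      ∀ e x, dist x (P.c (s e)) ≤ 1 / 2 ^ ρ e → dist x (P.c i0) ≤ 1 / 2 ^ (R0 + e) := by
  obtain ⟨Ω, hΩ, sep⟩ := P.exists_sep hi
  obtain ⟨T, hT, T1, T2⟩ := (P.cr (f := fun p : ℕ × ℕ × ℕ => p.1)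
    (g := fun p => p.2.1) (by fun_prop) (by fun_prop)).test (k := fun p => p.2.2) (by fun_prop)
  obtain ⟨n0, hn0, k0⟩ := CI.exists_choice (O := ∅)
    (p := fun j n : ℕ => decide (i0 < n) && T (n, i0, j)) (by fun_prop) fun j => by
      obtain ⟨n, h1, h2⟩ := hni (P.c i0) (by rw [dist_self]; positivity) (1 / 2 ^ j)
        (by positivity) i0
      exact ⟨n, by simp [h1, T2 (n, i0, j) h2.le]⟩
  simp only [Bool.and_eq_true, decide_eq_true_eq] at k0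
  let g : ℕ → ℕ := fun e => Nat.rec (R0 + 3) (fun _ x => x + Ω (n0 x) + 5) e
  have hg : CI ∅ g := CI.of_rec1 (h := fun _ x => x + Ω (n0 x) + 5) (by fun_prop) fun _ => rfl
  have gs : ∀ e, g (e + 1) = g e + Ω (n0 (g e)) + 5 := fun _ => rfl
  have gm : Monotone g := monotone_nat_of_le_succ fun e => by rw [gs]; omega
  have ge : ∀ e, R0 + e + 3 ≤ g e := fun e => by
    induction e with
    | zero => exact le_rfl
    | succ e ih => rw [gs]; omega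
  have ann : ∀ e x, dist x (P.c (n0 (g e))) ≤ 1 / 2 ^ (Ω (n0 (g e)) + 1) →
      1 / 2 ^ (Ω (n0 (g e)) + 1) < dist x (P.c i0) ∧ dist x (P.c i0) ≤ 8 * (1 / 2 ^ g e) := by
    intro e x hx
    have k1 := sep (n0 (g e)) _ i0 le_rfl (k0 (g e)).1.le (k0 (g e)).1.ne'
    have k2 := T1 _ (k0 (g e)).2
    have k3 : (1 : ℝ) / 2 ^ Ω (n0 (g e)) = 2 * (1 / 2 ^ (Ω (n0 (g e)) + 1)) := by field_simp; ring
    have k4 : (3 : ℝ) / 2 ^ g e = 3 * (1 / 2 ^ g e) := by ring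
    have k5 : (0 : ℝ) < 1 / 2 ^ g e := by positivity
    simp only at k2
    constructor
    · linarith [dist_triangle_left (P.c (n0 (g e))) (P.c i0) x]
    · linarith [dist_triangle x (P.c (n0 (g e))) (P.c i0)]
  have lt : ∀ e e' x, e < e' → dist x (P.c (n0 (g e))) ≤ 1 / 2 ^ (Ω (n0 (g e)) + 1) →
      dist x (P.c (n0 (g e'))) ≤ 1 / 2 ^ (Ω (n0 (g e')) + 1) → False := by
    intro e e' x he h1 h2
    have k1 := (ann e x h1).1
    have k2 := (ann e' x h2).2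
    have k3 : (1 : ℝ) / 2 ^ g e' ≤ 1 / 2 ^ (Ω (n0 (g e)) + 4) :=
      inv2_le (by have := gm (show e + 1 ≤ e' from he); rw [gs] at this; omega)
    have k4 : (1 : ℝ) / 2 ^ (Ω (n0 (g e)) + 1) = 8 * (1 / 2 ^ (Ω (n0 (g e)) + 4)) := by
      field_simp; ring
    linarith
  have cl : ∀ e x, dist x (P.c (n0 (g e))) ≤ 1 / 2 ^ (Ω (n0 (g e)) + 1) →
      dist x (P.c i0) ≤ 1 / 2 ^ (R0 + e) := fun e x hx => by
    have k2 := (ann e x hx).2
    have k3 : (1 : ℝ) / 2 ^ g e ≤ 1 / 2 ^ (R0 + e + 3) := inv2_le (ge e)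
    have k4 : (1 : ℝ) / 2 ^ (R0 + e) = 8 * (1 / 2 ^ (R0 + e + 3)) := by field_simp; ring
    linarith
  have hni' : ∀ e x, dist x (P.c (n0 (g e))) ≤ 1 / 2 ^ (Ω (n0 (g e)) + 1) →
      ∀ ε > 0, ∀ σ, ∃ n > σ, dist (P.c n) x < ε := fun e x hx => hni x
        ((cl e x hx).trans (inv2_le (by omega)))
  obtain ⟨q, hq, k1⟩ := CI.exists_choice (O := ∅)
    (p := fun (a : ℕ × ℕ) (n : ℕ) => decide (n0 (g a.1) < n) &&
      T (n, n0 (g a.1), a.2 + a.1 + (Ω (n0 (g a.1)) + 1) + 2)) (by fun_prop) fun a => by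
      obtain ⟨n, h1, h2⟩ := hni' a.1 _ (by rw [dist_self]; positivity)
        (1 / 2 ^ (a.2 + a.1 + (Ω (n0 (g a.1)) + 1) + 2)) (by positivity) (n0 (g a.1))
      exact ⟨n, by simp [h1, T2 (n, _, _) h2.le]⟩
  simp only [Bool.and_eq_true, decide_eq_true_eq] at k1
  refine ⟨fun e => n0 (g e), fun e => Ω (n0 (g e)) + 1, fun e j => q (e, j), by fun_prop,
    by fun_prop, hq, fun e e' x h1 h2 => ?_, hni', fun e j => (T1 _ (k1 (e, j)).2).trans ?_,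
    fun e j => (k1 (e, j)).1, cl⟩
  · rcases lt_trichotomy e e' with h | h | h
    · exact (lt _ _ x h h1 h2).elim
    · exact h
    · exact (lt _ _ x h h2 h1).elim
  · simp only
    rw [pow_add _ _ 2, div_le_div_iff₀ (by positivity) (by positivity)]
    have : (0 : ℝ) < 2 ^ (j + e + (Ω (n0 (g e)) + 1)) := by positivity
    linarith

/-- The class of the region `t`, among `0, ..., n`. -/
def kap (n t : ℕ) : ℕ := min t.unpair.2.unpair.1 n

theorem ci_case {α σ : Type} [Primcodable α] [Primcodable σ] (F : ℕ → α → σ)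
    (hF : ∀ k, CI ∅ (F k)) {κ : α → ℕ} (hκ : CI ∅ κ) (n : ℕ) :
    CI ∅ fun a => F (min (κ a) n) a := by
  induction n with
  | zero => exact (hF 0).of_eq fun a => by simp
  | succ n ih =>
    have h := hF (n + 1)
    refine (CI.cond (c := fun a => decide (κ a ≤ n)) (by fun_prop) ih h).of_eq fun a => ?_
    by_cases hk : κ a ≤ n
    · rw [decide_eq_true hk, cond_true, min_eq_left hk, min_eq_left (by omega)]
    · rw [decide_eq_false hk, cond_false, min_eq_right (by omega)]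

theorem regionsN (P : Pres) (hi : Function.Injective P.c) (i0 R0 : ℕ)
    (hni : ∀ x, dist x (P.c i0) ≤ 1 / 2 ^ R0 → ∀ ε > 0, ∀ σ, ∃ n > σ, dist (P.c n) x < ε)
    (n : ℕ) :
    ∃ (z s ρ : ℕ → ℕ) (q : ℕ → ℕ → ℕ), Function.Injective z ∧
      CI ∅ s ∧ CI ∅ ρ ∧ CI ∅ (fun p : ℕ × ℕ => q p.1 p.2) ∧
      (∀ e e' x, dist x (P.c (s e)) ≤ 1 / 2 ^ ρ e → dist x (P.c (s e')) ≤ 1 / 2 ^ ρ e' → e = e') ∧
      (∀ e x, dist x (P.c (s e)) ≤ 1 / 2 ^ ρ e → ∀ ε > 0, ∀ σ, ∃ n > σ, dist (P.c n) x < ε) ∧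
      (∀ e j, dist (P.c (q e j)) (P.c (s e)) ≤ 1 / 2 ^ (j + e + ρ e)) ∧ (∀ e j, s e < q e j) ∧
      ∀ e x, dist x (P.c (s e)) ≤ 1 / 2 ^ ρ e → dist x (P.c (z (kap n e))) ≤ 1 / 2 ^ e := by
  obtain ⟨z, ρ0, -, hz, hρ0, -, u1, u2, -, -, -⟩ := regions P hi i0 R0 hni
  choose s ρ q hs hρ hq v1 v2 v3 v4 v5 using fun k => regions P hi (z k) (ρ0 k) (u2 k)
  have hk : CI ∅ fun t : ℕ => t.unpair.2.unpair.1 := by fun_prop
  refine ⟨z, fun t => s (kap n t) t, fun t => ρ (kap n t) t, fun t j => q (kap n t) t j, ?_,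
    ci_case s hs hk n, ci_case ρ hρ hk n,
    ci_case (fun k (p : ℕ × ℕ) => q k p.1 p.2) hq (κ := fun p => p.1.unpair.2.unpair.1)
      (by fun_prop) n, ?_, fun e => v2 _ e, fun e => v3 _ e, fun e => v4 _ e, ?_⟩
  · intro k k' h
    refine u1 k k' (P.c (z k)) (by rw [dist_self]; positivity) ?_
    rw [h, dist_self]; positivity
  · intro e e' x h1 h2
    by_cases hkk : kap n e = kap n e'
    · simp only at h1 h2
      rw [← hkk] at h2
      exact v1 _ e e' x h1 h2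
    · exact absurd (u1 _ _ x ((v5 _ e x h1).trans (inv2_le (by omega)))
        ((v5 _ e' x h2).trans (inv2_le (by omega)))) hkk
  · intro e x hx
    exact (v5 _ e x hx).trans (inv2_le (by omega))

end Pool.Agent.KS6_32.TC
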