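import Mathlib
import Pool.Agent.KS6_32.TC.GFam

/-! The presentation with walls (adapted from the library). -/

set_option autoImplicit false

namespace Pool.Agent.KS6_32.TC

open Pool.Agent.H37 Pool.Agent.H83.Tcc Filter Topology Metric BoundedContinuousFunction

theorem walls (P : Pres) (hi : Function.Injective P.c) :
    ∃ (N : Pres) (h : P.Y ≃ₜ N.Y) (Zo : ℕ → ℕ → Option ℕ), (∀ i, N.c i = h (P.c i)) ∧
      (∀ x y, dist x y ≤ dist (h x) (h y)) ∧ CI ∅ (fun p : ℕ × ℕ => Zo p.1 p.2) ∧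
      ∀ e n v, G e 0 n = some v → ∃ Z, (∀ n' Z', Zo e n' = some Z' → Z' = Z) ∧ Zo e n = some Z ∧
        ∀ y : ℕ → P.Y, (∀ k, dist (h (y k)) (N.c v.unpair.1) < 1 / 2 ^ e) →
          (∀ k, dist (y k) (y (k + 1)) ≤ 2 / 2 ^ Z) →
          ∀ k, dist (y 0) (y k) ≤ 1 / 2 ^ v.unpair.2 := by
  classical
  obtain ⟨Ω, hΩ, sep⟩ := P.exists_sep hi
  let W : ℕ → ℕ → Option ℕ := fun e n => (List.range (n + 1)).find? fun s => (G e 0 s).isSome
  have hW : CI ∅ fun p : ℕ × ℕ => W p.1 p.2 := by fun_prop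
  let Lst : ℕ → ℕ → Prop := fun e s => (G e 0 s).isSome = true ∧ ∀ j < s, (G e 0 j).isSome = false
  have W1 : ∀ e n s, W e n = some s ↔ Lst e s ∧ s ≤ n := fun e n s => by
    simp only [W, Lst, List.find?_range_eq_some, List.mem_range, Nat.lt_succ_iff,
      Bool.not_eq_eq_eq_not, Bool.not_true]
    tauto
  have L1 : ∀ e s s', Lst e s → Lst e s' → s = s' := fun e s s' h h' => by
    rcases lt_trichotomy s s' with k | k | k
    · simpa [h.1] using h'.2 s k
    · exact k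
    · simpa [h'.1] using h.2 s' k
  let σ : ℕ → ℕ → ℕ := fun e s => s + e + ((G e 0 s).getD 0).unpair.1
  let Z : ℕ → ℕ → ℕ := fun e s => Ω (σ e s) + ((G e 0 s).getD 0).unpair.2 + 3
  have hσ : CI ∅ fun p : ℕ × ℕ => σ p.1 p.2 := by fun_prop
  have hZ : CI ∅ fun p : ℕ × ℕ => Z p.1 p.2 := by fun_prop
  let b : ℕ → ℕ → P.Y → ℝ := fun e s x => 1 / 2 ^ e * min 1 (2 ^ Z e s * dl P (σ e s) x)
  have b0 : ∀ e s i, i ≤ σ e s → b e s (P.c i) = 0 := fun e s i h => by
    simp [b, dl_zero P h]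
  let β : ℕ → P.Y → ℝ := fun e x => if h : ∃ s, Lst e s then b e h.choose x else 0
  have β1 : ∀ e s, Lst e s → ∀ x, β e x = b e s x := fun e s hs x => by
    have h : ∃ s, Lst e s := ⟨s, hs⟩
    simp only [β, dif_pos h]
    rw [L1 e _ _ h.choose_spec hs]
  have β2 : ∀ e, (¬ ∃ s, Lst e s) → ∀ x, β e x = 0 := fun e h x => by simp only [β, dif_neg h]
  have βb : ∀ e x, |β e x| ≤ 1 / 2 ^ e := fun e x => by
    by_cases h : ∃ s, Lst e s
    · obtain ⟨s, hs⟩ := h
      have := dl_nonneg P (σ e s) x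
      rw [β1 e s hs, abs_of_nonneg (mul_nonneg (by positivity) (le_min zero_le_one (by positivity)))]
      exact mul_le_of_le_one_right (by positivity) (min_le_left _ _)
    · rw [β2 e h, abs_zero]; positivity
  have βc : ∀ e, Continuous (β e) := fun e => by
    by_cases h : ∃ s, Lst e s
    · obtain ⟨s, hs⟩ := h
      rw [funext (β1 e s hs)]
      have := dl_cont P (σ e s)
      fun_prop
    · rw [funext (β2 e h)]; fun_prop
  have βr : CR fun p : ℕ × ℕ => β p.2 (P.c p.1) := by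
    have h1 : CI ∅ fun p : ℕ × ℕ => W p.2 p.1 := hW.comp (g := fun p : ℕ × ℕ => (p.2, p.1))
      (by fun_prop)
    have h2 : CI ∅ fun p : ℕ × ℕ => σ p.2 ((W p.2 p.1).getD 0) := ci2 hσ (by fun_prop) (by fun_prop)
    have h3 : CI ∅ fun p : ℕ × ℕ => Z p.2 ((W p.2 p.1).getD 0) := ci2 hZ (by fun_prop) (by fun_prop)
    refine (CR.cond h1.isSome ((CR.inv2 (f := fun p : ℕ × ℕ => p.2) (by fun_prop)).mul
      (CR.one.min ((CR.pow2 h3).mul (dl_cr P h2 (g := fun p : ℕ × ℕ => p.1) (by fun_prop)))))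
      CR.zero).of_eq fun p => ?_
    rcases hw : W p.2 p.1 with _ | s
    · by_cases h : ∃ s, Lst p.2 s
      · obtain ⟨s, hs⟩ := h
        have : p.1 < s := by
          by_contra hlt
          rw [(W1 _ _ _).2 ⟨hs, not_lt.1 hlt⟩] at hw
          cases hw
        rw [β1 _ s hs, b0 _ _ _ (by simp only [σ]; omega)]; rfl
      · rw [β2 _ h]; rfl
    · rw [β1 _ s ((W1 _ _ _).1 hw).1]; rfl
  obtain ⟨N, h, h1, h2⟩ := P.induced (fun x => (x, xi β βb x))
    (continuous_id.prodMk (xi_cont β βb βc))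
    (fun u hu => uniformContinuous_fst.comp_cauchySeq hu)
    ((P.cr (by fun_prop) (by fun_prop)).max (cr_bdist (fun i => xi β βb (P.c i)) (fun i t ht => by
      by_cases h : ∃ s, Lst t s
      · obtain ⟨s, hs⟩ := h
        rw [xi_apply, β1 _ s hs, b0 _ _ _ (by simp only [σ]; nlinarith)]
      · exact β2 _ h _) βr))
  refine ⟨N, h, fun e n => (W e n).map (Z e), h1, fun x y => by rw [h2]; exact le_max_left _ _,
    CI.optMap (ci2 hZ (by fun_prop) (by fun_prop)) hW, fun e n v hv => ?_⟩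
  have hex : ∃ s, (G e 0 s).isSome = true := ⟨n, by simp [hv]⟩
  have hs : Lst e (Nat.find hex) := ⟨Nat.find_spec hex, fun j hj => by simpa using Nat.find_min hex hj⟩
  have hn : Nat.find hex ≤ n := Nat.find_min' _ (by simp [hv])
  set s := Nat.find hex
  have hv' : (G e 0 s).getD 0 = v := by
    obtain ⟨v', hv'⟩ := Option.isSome_iff_exists.1 hs.1
    rw [hv', Option.getD_some]
    exact Option.some.inj ((E_mono hv' hn).symm.trans hv)
  refine ⟨Z e s, fun n' Z' h' => ?_, by simp only [(W1 e n s).2 ⟨hs, hn⟩, Option.map_some],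
    fun y hy hst => ?_⟩
  · obtain ⟨s', k1, rfl⟩ := Option.map_eq_some_iff.1 h'
    rw [L1 e _ _ ((W1 _ _ _).1 k1).1 hs]
  have e0 : (0 : ℝ) < 1 / 2 ^ Z e s := by positivity
  have nr : ∀ k, ∃ t ≤ σ e s, dist (y k) (P.c t) < 1 / 2 ^ Z e s := by
    intro k
    have k1 := hy k
    rw [h1, h2] at k1
    have k2 := (dist_coe_le_dist e).trans_lt ((le_max_right _ _).trans_lt k1)
    rw [xi_apply, xi_apply, β1 e s hs, β1 e s hs, b0 _ _ _ (by simp only [σ, hv']; omega),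
      Real.dist_eq, sub_zero] at k2
    have k3 := (le_abs_self _).trans_lt k2
    have k4 : min 1 (2 ^ Z e s * dl P (σ e s) (y k)) < 1 := by
      by_contra hlt
      have : (1 : ℝ) / 2 ^ e * 1 ≤ b e s (y k) :=
        mul_le_mul_of_nonneg_left (not_lt.1 hlt) (by positivity)
      linarith
    obtain ⟨t, ht, e1⟩ := dl_eq P (σ e s) (y k)
    refine ⟨t, ht, ?_⟩
    rw [← e1, lt_div_iff₀ (by positivity), mul_comm]
    simpa using k4
  obtain ⟨t0, ht0, h0⟩ := nr 0
  have e1 : (1 : ℝ) / 2 ^ Z e s ≤ 1 / 2 ^ (Ω (σ e s) + 3) := inv2_le (by simp only [Z]; omega)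
  have e2 : (1 : ℝ) / 2 ^ Z e s ≤ 1 / 2 ^ (v.unpair.2 + 1) := inv2_le (by simp only [Z, hv']; omega)
  have e3 : (1 : ℝ) / 2 ^ Ω (σ e s) = 8 * (1 / 2 ^ (Ω (σ e s) + 3)) := by field_simp; ring
  have e4 : (1 : ℝ) / 2 ^ v.unpair.2 = 2 * (1 / 2 ^ (v.unpair.2 + 1)) := by field_simp; ring
  have e5 : (2 : ℝ) / 2 ^ Z e s = 2 * (1 / 2 ^ Z e s) := by ring
  have all : ∀ k, dist (y k) (P.c t0) < 1 / 2 ^ Z e s := by
    intro k
    induction k with
    | zero => exact h0
    | succ k ih =>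
      obtain ⟨t, ht, k1⟩ := nr (k + 1)
      by_cases htt : t0 = t
      · rwa [htt]
      · have k2 := sep _ _ _ ht0 ht htt
        have k3 := dist_triangle4 (P.c t0) (y k) (y (k + 1)) (P.c t)
        rw [dist_comm (P.c t0) (y k)] at k3
        linarith [hst k]
  intro k
  linarith [all 0, all k, dist_triangle_right (y 0) (y k) (P.c t0)]

end Pool.Agent.KS6_32.TC
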