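import Mathlib
import Pool.Agent.KS6_32.TC.Moves
import Pool.Agent.KS6_32.TC.Walls
import Pool.Agent.KS6_32.TC.Regions
import Pool.Agent.KS6_32.TC.Diag

/-! Infinitely many presentations, the case of a ball without isolated points. -/

set_option autoImplicit false

namespace Pool.Agent.KS6_32.TC

open Pool.Agent.H37 Pool.Agent.H83.Tcc Filter Topology Metric

theorem Commit.continuous {P Q : Pres} {f : P.Y → Q.Y} (h : Commit P Q f) : Continuous f := by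
  obtain ⟨ok, ci, ck, cj, cl, -, -, -, -, -, c6, c7⟩ := h
  refine Metric.continuous_iff.2 fun x ε hε => ?_
  obtain ⟨l, hl⟩ := (ev_lt 2 hε).exists
  obtain ⟨n, h1, h2, h3⟩ := c7 x l
  refine ⟨1 / 2 ^ (ck n + 2), by positivity, fun y hy => ?_⟩
  have e4 : (1 : ℝ) / 2 ^ ck n = 4 * (1 / 2 ^ (ck n + 2)) := by field_simp; ring
  have p4 : (0 : ℝ) < 1 / 2 ^ (ck n + 2) := by positivity
  have k1 := c6 n h1 x (by linarith)
  have k2 := c6 n h1 y (by linarith [dist_triangle y x (P.c (ci n))])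
  rw [h2] at k1 k2
  have e2 : (2 : ℝ) / 2 ^ l = 2 * (1 / 2 ^ l) := by ring
  linarith [dist_triangle_right (f y) (f x) (Q.c (cj n))]

theorem good {N M : Pres} (h : N.Y ≃ₜ M.Y) (n : ℕ) (z s ρ : ℕ → ℕ)
    (dis : ∀ e e' x, dist x (N.c (s e)) ≤ 1 / 2 ^ ρ e → dist x (N.c (s e')) ≤ 1 / 2 ^ ρ e' → e = e')
    (near : ∀ e x, dist x (N.c (s e)) ≤ 1 / 2 ^ ρ e → dist x (N.c (z (kap n e))) ≤ 1 / 2 ^ e)
    (mid : ∀ (e : ℕ) (S : Set N.Y), (∀ x ∈ S, ∀ t, t ≠ e → ¬ dist x (N.c (s t)) ≤ 1 / 2 ^ ρ t) →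
        CommitOn M N (h '' S) h.symm)
    (x0 : N.Y) (hx0 : ∀ l ≤ n, x0 ≠ N.c (z l)) : ∃ δ > 0, CommitOn M N (h '' ball x0 δ) h.symm := by
  obtain ⟨δ0, hδ0, h0⟩ : ∃ δ0 > 0, ∀ l ≤ n, 2 * δ0 ≤ dist x0 (N.c (z l)) := by
    have : ∀ᶠ k : ℕ in atTop, ∀ l ∈ Set.Iic n, 2 / 2 ^ k < dist x0 (N.c (z l)) :=
      (eventually_all_finite (Set.finite_Iic n)).2 fun l hl => ev_lt 2 (dist_pos.2 (hx0 l hl))
    obtain ⟨k, hk⟩ := this.exists
    exact ⟨1 / 2 ^ k, by positivity, fun l hl => by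
      have e2 : (2 : ℝ) / 2 ^ k = 2 * (1 / 2 ^ k) := by ring
      rw [← e2]; exact (hk l hl).le⟩
  obtain ⟨E0, hE0⟩ := (ev_lt 1 hδ0).exists
  obtain ⟨t0, ht0⟩ : ∃ t0, ∀ t, t ≠ t0 → ¬ dist x0 (N.c (s t)) ≤ 1 / 2 ^ ρ t := by
    by_cases hex : ∃ t0, dist x0 (N.c (s t0)) ≤ 1 / 2 ^ ρ t0
    · obtain ⟨t0, h1⟩ := hex
      exact ⟨t0, fun t ht h2 => ht (dis t t0 x0 h2 h1)⟩
    · push Not at hex
      exact ⟨0, fun t _ => not_le.2 (hex t)⟩
  have h1 : ∀ᶠ x in 𝓝 x0, ∀ t ∈ Set.Iio E0, t ≠ t0 → ¬ dist x (N.c (s t)) ≤ 1 / 2 ^ ρ t := by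
    refine (eventually_all_finite (Set.finite_Iio E0)).2 fun t _ => ?_
    by_cases ht : t = t0
    · exact Eventually.of_forall fun x h => absurd ht h
    · have h2 := not_le.1 (ht0 t ht)
      have h3 : Tendsto (fun x => dist x (N.c (s t))) (𝓝 x0) (𝓝 (dist x0 (N.c (s t)))) :=
        (continuous_id.dist continuous_const).tendsto x0
      exact (h3.eventually (lt_mem_nhds h2)).mono fun x hx _ => not_le.2 hx
  obtain ⟨δ1, hδ1, h2⟩ := Metric.eventually_nhds_iff.1 h1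
  refine ⟨min δ0 δ1, lt_min hδ0 hδ1, mid t0 _ fun x hx t ht h3 => ?_⟩
  rw [mem_ball, lt_min_iff] at hx
  by_cases htE : t < E0
  · exact h2 hx.2 t htE ht h3
  · have k1 := near t x h3
    have k2 : (1 : ℝ) / 2 ^ t ≤ 1 / 2 ^ E0 := inv2_le (not_lt.1 htE)
    have k3 := h0 (kap n t) (min_le_right _ _)
    have k4 := dist_triangle_left x0 (N.c (z (kap n t))) x
    linarith [hx.1]

theorem caseB_seq (P : Pres) (hi : Function.Injective P.c) (i0 R0 : ℕ)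
    (hni : ∀ x, dist x (P.c i0) ≤ 1 / 2 ^ R0 → ∀ ε > 0, ∀ σ, ∃ n > σ, dist (P.c n) x < ε) :
    ∃ M : ℕ → Pres, (∀ n, Nonempty ((M n).Y ≃ₜ P.Y)) ∧ ∀ i j, i < j →
      ∀ f : (M j).Y → (M i).Y, Function.Injective f → ¬ Commit (M j) (M i) f := by
  obtain ⟨N, hN, Zo, n1, n2, hZo, n3⟩ := walls P hi
  have hiN : Function.Injective N.c := fun a b hab => by
    rw [n1, n1] at hab
    exact hi (hN.injective hab)
  have hniN : ∀ x, dist x (N.c i0) ≤ 1 / 2 ^ R0 → ∀ ε > 0, ∀ σ, ∃ n > σ, dist (N.c n) x < ε := by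
    intro x hx ε hε σ
    obtain ⟨δ, hδ, h1⟩ := Metric.continuous_iff.1 hN.continuous (hN.symm x) ε hε
    have h2 : dist (hN.symm x) (P.c i0) ≤ 1 / 2 ^ R0 := (n2 _ _).trans (by
      rw [hN.apply_symm_apply, ← n1]; exact hx)
    obtain ⟨n, hn, h3⟩ := hni _ h2 δ hδ σ
    have h4 := h1 _ h3
    rw [hN.apply_symm_apply, ← n1] at h4
    exact ⟨n, hn, h4⟩
  choose z s ρ q hz hs hρ hq r1 r2 r3 r4 r5 using fun n => regionsN N hiN i0 R0 hniN n
  choose M h m1 mid m2 using fun n => moves N hiN (s n) (ρ n) (q n) (hs n) (hρ n) (hq n) (r1 n)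
    (r2 n) (r3 n)
  refine ⟨M, fun n => ⟨(h n).symm.trans hN.symm⟩, fun i j hij f hf hc => ?_⟩
  have hcont := Commit.continuous hc
  let g : N.Y → N.Y := fun x => (h i).symm (f (h j x))
  have hg : Continuous g := (h i).symm.continuous.comp (hcont.comp (h j).continuous)
  have gi : Function.Injective g := (h i).symm.injective.comp (hf.comp (h j).injective)
  obtain ⟨k, hk, hbad⟩ : ∃ k ≤ j, ∀ l ≤ i, g (N.c (z j k)) ≠ N.c (z i l) := by
    by_contra hno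
    push Not at hno
    choose! l hl hl' using hno
    have hmaps : ∀ k ∈ Finset.range (j + 1), l k ∈ Finset.range (i + 1) := fun k hk => by
      rw [Finset.mem_range] at hk ⊢
      have := hl k (by omega)
      omega
    obtain ⟨a, ha, b, hb, hab, hlab⟩ := Finset.exists_ne_map_eq_of_card_lt_of_maps_to
      (by simp only [Finset.card_range]; omega) hmaps
    rw [Finset.mem_range] at ha hb
    refine hab (hz j (hiN (gi ?_)))
    rw [hl' a (by omega), hl' b (by omega), hlab]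
  obtain ⟨δ, hδ, hgood⟩ := good (h i) i (z i) (s i) (ρ i) (r1 i) (r5 i) (mid i)
    (g (N.c (z j k))) hbad
  obtain ⟨δ', hδ', h1⟩ := Metric.continuous_iff.1 hg (N.c (z j k)) δ hδ
  obtain ⟨l1, hl1⟩ := (ev_lt 1 hδ').exists
  let S : Set (M j).Y := h j '' closedBall (N.c (z j k)) (1 / 2 ^ l1)
  have hS : ∀ x ∈ S, f x ∈ h i '' ball (g (N.c (z j k))) δ := by
    rintro _ ⟨x, hx, rfl⟩
    exact ⟨g x, h1 x (lt_of_le_of_lt (mem_closedBall.1 hx) hl1), (h i).apply_symm_apply _⟩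
  refine diagB hN n1 n2 Zo hZo n3 (h j) (m1 j) hiN (s j) (ρ j) (q j) (hs j) (hq j) (r3 j) (r4 j)
    (m2 j) (fun e => Nat.pair e (Nat.pair k l1)) (by fun_prop) (fun e => by simp) (z j k) l1 ?_
    S (fun x hx => ⟨x, hx, rfl⟩) ((h i).symm ∘ f) ((h i).symm.injective.comp hf)
    ((Commit.on hc S).comp hgood hS)
  intro e x hx
  have k1 := r5 j _ x hx
  have e1 : kap j (Nat.pair e (Nat.pair k l1)) = k := by simp [kap, hk]
  rw [e1] at k1
  exact k1.trans (inv2_le ((Nat.right_le_pair k l1).trans (Nat.right_le_pair e _)))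

end Pool.Agent.KS6_32.TC
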