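import Mathlib
import Pool.Agent.KS6_32.TC.Base

/-! Oracles computing bijections between the coded presentations. -/

set_option autoImplicit false

namespace Pool.Agent.KS6_32.TC

open Pool.Agent.H37 Pool.Agent.H83.Tcc Filter Topology

/-- the oracles `O` decide the set `V` -/
def Decides (O : Set (ℕ →. ℕ)) (V : Set ℕ) : Prop :=
  ∃ v : ℕ → Bool, CI O v ∧ ∀ x, v x = true ↔ x ∈ V

/-- some number `≤ b` is enumerated at stage `s` -/
def evt (en : ℕ → ℕ → Bool) (b s : ℕ) : Bool := (List.range (b + 1)).any fun x => en x s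

theorem evt_iff (en : ℕ → ℕ → Bool) (b s : ℕ) : evt en b s = true ↔ ∃ x ≤ b, en x s = true := by
  simp only [evt, List.any_eq_true, List.mem_range, Nat.lt_succ_iff]

theorem ci_evt {en : ℕ → ℕ → Bool} (h : CI ∅ fun p : ℕ × ℕ => en p.1 p.2) :
    CI ∅ fun p : ℕ × ℕ => evt en p.1 p.2 := by
  unfold evt
  have h' : CI ∅ fun q : (ℕ × ℕ) × ℕ => en q.2 q.1.2 :=
    h.comp (g := fun q : (ℕ × ℕ) × ℕ => (q.2, q.1.2)) (by fun_prop)
  fun_prop

theorem evt_fin {en : ℕ → ℕ → Bool} (h : ∀ x s s', en x s = true → en x s' = true → s = s')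
    (b : ℕ) : {s | evt en b s = true}.Finite := by
  refine ((Set.finite_le_nat b).biUnion (t := fun x => {s | en x s = true}) fun x _ =>
    Set.Subsingleton.finite fun s hs s' hs' => h x s s' hs hs').subset fun s hs => ?_
  obtain ⟨x, hx, h1⟩ := (evt_iff en b s).1 hs
  exact Set.mem_biUnion (x := x) hx h1

theorem hh_pos (ev : ℕ → ℕ → Bool) (b m : ℕ) :
    hh ev b m = 0 ∨ ∃ s, ev b s = true ∧ (1 : ℝ) / 2 ^ (s + b + 1) ≤ hh ev b m := by
  by_cases h : ∃ s ∈ Finset.range m, (m.testBit s && ev b s) = true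
  · obtain ⟨s, hs, h1⟩ := h
    refine Or.inr ⟨s, (Bool.and_eq_true _ _ ▸ h1 : _ ∧ _).2, ?_⟩
    have := Finset.single_le_sum (f := fun s => cond (m.testBit s && ev b s)
      ((1 : ℝ) / 2 ^ (s + b + 1)) 0) (fun s _ => (hh_term ev b m s).1) hs
    simp only [h1, cond_true] at this
    exact this
  · push Not at h
    left
    refine Finset.sum_eq_zero fun s hs => ?_
    have := h s hs
    simp only [ne_eq, Bool.not_eq_true] at this
    rw [this, cond_false]

/-- `M` codes the c.e. set `V` over the presentation `N0`. -/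
def Good (N0 : Pres) (V : Set ℕ) (M : Pres) : Prop :=
  ∃ (en : ℕ → ℕ → Bool) (j : M.Y → N0.Y × ℝ), CI ∅ (fun p : ℕ × ℕ => en p.1 p.2) ∧
    (∀ x, x ∈ V ↔ ∃ s, en x s = true) ∧ (∀ x s s', en x s = true → en x s' = true → s = s') ∧
    (∀ x y, dist x y = dist (j x) (j y)) ∧
    (∀ u, j (M.c u) = (N0.c u.unpair.1, hh (evt en) u.unpair.1 u.unpair.2)) ∧
    ∀ y, (j y).2 = 0 ∨ ∃ b m, j y = (N0.c b, hh (evt en) b m)

theorem pair {N0 : Pres} (hi : Function.Injective N0.c) {β : ℕ → ℕ} (hβ : CI ∅ β)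
    (hβi : Function.Injective β)
    (iso : ∀ t y, dist y (N0.c (β t)) < 1 / 2 ^ (t + 1) → y = N0.c (β t)) {V W : Set ℕ}
    {M N : Pres} (hM : Good N0 V M) (hN : Good N0 W N) {O : Set (ℕ →. ℕ)} (hO : Decides O W)
    (f : M.Y → N.Y) (hf : Function.Bijective f) (hc : CompMapIn O M N f) : Decides O V := by
  obtain ⟨en, j, e0, e1, e2, m1, m2, m3⟩ := hM
  obtain ⟨en', j', e0', e1', e2', n1, n2, n3⟩ := hN
  obtain ⟨w, hw, hw'⟩ := hO
  obtain ⟨ok, ci, ck, cj, cl, c1, c2, c3, c4, c5, c6, c7⟩ := hc.commit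
  have jinj : Function.Injective j' := fun x y e => by
    rw [← dist_eq_zero, n1, e, dist_self]
  have jinj0 : Function.Injective j := fun x y e => by
    rw [← dist_eq_zero, m1, e, dist_self]
  have hβO := hβ.of_empty (O := O)
  have e0O := e0.of_empty (O := O)
  have e0O' := e0'.of_empty (O := O)
  obtain ⟨κ, hκ, k1⟩ := CI.exists_choice (O := O) (p := fun t n : ℕ =>
    (List.range (β t + 1)).all fun x => !(w x) || (List.range n).any fun s => en' x s)
    (by
      have h1 : CI O fun q : ((ℕ × ℕ) × ℕ) × ℕ => en' q.1.2 q.2 :=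
        e0O'.comp (g := fun q : ((ℕ × ℕ) × ℕ) × ℕ => (q.1.2, q.2)) (by fun_prop)
      fun_prop) fun t => by
      classical
      let g : ℕ → ℕ := fun x => if h : ∃ s, en' x s = true then h.choose + 1 else 0
      refine ⟨(Finset.range (β t + 1)).sup g, List.all_eq_true.2 fun x hx => ?_⟩
      rw [List.mem_range] at hx
      by_cases hxW : x ∈ W
      · have h := (e1' x).1 hxW
        have h2 := Finset.le_sup (f := g) (Finset.mem_range.2 hx)
        simp only [g, dif_pos h] at h2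
        rw [Bool.or_eq_true, List.any_eq_true]
        exact Or.inr ⟨_, List.mem_range.2 h2, h.choose_spec⟩
      · have : w x = false := by
          cases h : w x
          · rfl
          · exact absurd ((hw' x).1 h) hxW
        simp [this]
  have κ1 : ∀ t s, evt en' (β t) s = true → s < κ t := fun t s hs => by
    obtain ⟨x, hx, h1⟩ := (evt_iff en' _ s).1 hs
    have h2 := List.all_eq_true.1 (k1 t) x (List.mem_range.2 (Nat.lt_succ_of_le hx))
    rw [(hw' x).2 ((e1' x).2 ⟨s, h1⟩)] at h2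
    simp only [Bool.not_true, Bool.false_or, List.any_eq_true, List.mem_range] at h2
    obtain ⟨s', h3, h4⟩ := h2
    rwa [e2' x s s' h1 h4]
  let R : ℕ → ℕ := fun t => κ t + β t + t + 2
  have hR : CI O R := by fun_prop
  have hq : ∀ t, j' (N.c (Nat.pair (β t) 0)) = (N0.c (β t), 0) := fun t => by
    rw [n2, Nat.unpair_pair, hh_zero]
  have isoq : ∀ t y, dist y (N.c (Nat.pair (β t) 0)) < 1 / 2 ^ R t →
      y = N.c (Nat.pair (β t) 0) := by
    intro t y hy
    refine jinj ?_
    rw [n1, hq, Prod.dist_eq, max_lt_iff] at hy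
    have h1 := iso t _ (hy.1.trans_le (inv2_le (by simp only [R]; omega)))
    rw [hq]
    refine Prod.ext h1 ?_
    rcases n3 y with h | ⟨b, m, h⟩
    · exact h
    have hb : b = β t := hi (by rw [← h1, h])
    subst hb
    rcases hh_pos (evt en') (β t) m with h2 | ⟨s, h2, h3⟩
    · rw [h]; exact h2
    have h4 := κ1 t s h2
    have h5 := hy.2
    rw [h, Real.dist_eq] at h5
    simp only [sub_zero] at h5
    have h6 := le_abs_self (hh (evt en') (β t) m)
    have h7 : (1 : ℝ) / 2 ^ R t ≤ 1 / 2 ^ (s + β t + 1) := inv2_le (by simp only [R]; omega)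
    linarith
  obtain ⟨T, hT, T1, T2⟩ := (N.cr (f := fun p : ℕ × ℕ × ℕ => p.1)
    (g := fun p => p.2.1) (by fun_prop) (by fun_prop)).test (k := fun p => p.2.2) (by fun_prop)
  have hTO := hT.of_empty (O := O)
  obtain ⟨F, hF, F1⟩ := CI.exists_choice (O := O) (p := fun t n : ℕ =>
    ok n && decide (cl n = R t + 3) && T (cj n, Nat.pair (β t) 0, R t + 3)) (by fun_prop)
    fun t => by
      obtain ⟨x, hx⟩ := hf.2 (N.c (Nat.pair (β t) 0))
      obtain ⟨n, h1, h2, h3⟩ := c7 x (R t + 3)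
      refine ⟨n, ?_⟩
      have h4 := c6 n h1 x (h3.le.trans (inv2_le (by omega)))
      rw [hx, h2, dist_comm] at h4
      simp [h1, h2, T2 (cj n, Nat.pair (β t) 0, R t + 3) h4]
  simp only [Bool.and_eq_true, decide_eq_true_eq] at F1
  have key : ∀ t x, dist x (M.c (ci (F t))) ≤ 1 / 2 ^ ck (F t) →
      f x = N.c (Nat.pair (β t) 0) := by
    intro t x hx
    have h1 := c6 _ (F1 t).1.1 x hx
    rw [(F1 t).1.2] at h1
    have h2 := T1 _ (F1 t).2
    refine isoq t _ ?_
    have h3 : (1 : ℝ) / 2 ^ R t = 8 * (1 / 2 ^ (R t + 3)) := by field_simp; ring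
    have h4 : (3 : ℝ) / 2 ^ (R t + 3) = 3 * (1 / 2 ^ (R t + 3)) := by ring
    have h0 : (0 : ℝ) < 1 / 2 ^ (R t + 3) := by positivity
    simp only at h2
    linarith [dist_triangle (f x) (N.c (cj (F t))) (N.c (Nat.pair (β t) 0))]
  have fy : ∀ t, f (M.c (ci (F t))) = N.c (Nat.pair (β t) 0) := fun t =>
    key t _ (by rw [dist_self]; positivity)
  have yinj : Function.Injective fun t => j (M.c (ci (F t))) := fun s t h => by
    have h1 : N.c (Nat.pair (β s) 0) = N.c (Nat.pair (β t) 0) := by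
      rw [← fy, ← fy, jinj0 h]
    have h2 := congrArg (fun z => (j' z).1) h1
    simp only [hq] at h2
    exact hβi (hi h2)
  have dec : ∀ t s, evt en (ci (F t)).unpair.1 s = true → s < ck (F t) := by
    intro t s hs
    by_contra hlt
    have h1 : dist (M.c (Nat.pair (ci (F t)).unpair.1 ((ci (F t)).unpair.2 ^^^ 2 ^ s)))
        (M.c (ci (F t))) = 1 / 2 ^ (s + (ci (F t)).unpair.1 + 1) := by
      rw [m1, m2, m2, Prod.dist_eq]
      simp only [Nat.unpair_pair, dist_self, Real.dist_eq]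
      rw [hh_toggle _ _ _ _ hs]
      exact max_eq_right (by positivity)
    have h2 := key t _ (h1.le.trans (inv2_le (by omega)))
    have h3 := hf.1 (h2.trans (fy t).symm)
    rw [h3, dist_self] at h1
    have h0 : (0 : ℝ) < 1 / 2 ^ (s + (ci (F t)).unpair.1 + 1) := by positivity
    linarith
  obtain ⟨τ, hτ, τ1⟩ := CI.exists_choice (O := O) (p := fun x t : ℕ =>
    decide (x ≤ (ci (F t)).unpair.1)) (by fun_prop) fun x => by
      by_contra hcon
      push Not at hcon
      simp only [ne_eq, decide_eq_true_eq, not_le] at hcon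
      refine Set.infinite_range_of_injective yinj (((Set.finite_lt_nat x).biUnion
        (t := fun b => (fun r => (N0.c b, r)) '' Set.range (hh (evt en) b)) fun b _ =>
          (hh_fin _ b (evt_fin e2 b)).image _).subset ?_)
      rintro _ ⟨t, rfl⟩
      exact Set.mem_biUnion (x := (ci (F t)).unpair.1) (hcon t) ⟨_, ⟨_, rfl⟩, (m2 _).symm⟩
  simp only [decide_eq_true_eq] at τ1
  refine ⟨fun x => (List.range (ck (F (τ x)))).any fun s => en x s, ?_, fun x => ?_⟩
  · have h1 : CI O fun q : ℕ × ℕ => en q.1 q.2 := e0O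
    fun_prop
  · rw [List.any_eq_true, e1]
    constructor
    · rintro ⟨s, -, hs⟩
      exact ⟨s, hs⟩
    · rintro ⟨s, hs⟩
      exact ⟨s, List.mem_range.2 (dec _ s ((evt_iff _ _ _).2 ⟨x, τ1 x, hs⟩)), hs⟩

end Pool.Agent.KS6_32.TC
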