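import Mathlib
import Pool.Agent.KS6_32.TC.Pair

/-! Computable bijections between the coded presentations bound the settling times. -/

set_option autoImplicit false

namespace Pool.Agent.KS6_32.TC

open Pool.Agent.H37 Pool.Agent.H83.Tcc Filter Topology

theorem evt_mono {en : ℕ → ℕ → Bool} {a b s : ℕ} (hab : a ≤ b) (h : evt en a s = true) :
    evt en b s = true := by
  obtain ⟨x, hx, h1⟩ := (evt_iff en a s).1 h
  exact (evt_iff en b s).2 ⟨x, hx.trans hab, h1⟩

theorem hh_card (ev : ℕ → ℕ → Bool) (b K : ℕ) (h : {s | ev b s = true}.Finite)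
    (hK : {s | ev b s = true}.ncard ≤ K) : (Set.range (hh ev b)).ncard ≤ 2 ^ K := by
  classical
  have hsub : Set.range (hh ev b) ⊆ (fun T : Finset ℕ => ∑ s ∈ T, (1 : ℝ) / 2 ^ (s + b + 1)) ''
      (h.toFinset.powerset : Set (Finset ℕ)) := by
    rintro _ ⟨m, rfl⟩
    refine ⟨h.toFinset.filter fun s => m.testBit s = true,
      Finset.mem_coe.2 (Finset.mem_powerset.2 (Finset.filter_subset _ _)), ?_⟩
    have hM : ∀ s ∈ h.toFinset, s ≤ h.toFinset.sup id := fun s hs =>
      Finset.le_sup (f := id) hs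
    rw [hh_eq ev b (show m ≤ m + h.toFinset.sup id + 1 by omega)]
    simp only [Bool.cond_eq_ite]
    rw [← Finset.sum_filter]
    refine Finset.sum_congr ?_ fun _ _ => rfl
    ext s
    simp only [Finset.mem_filter, Set.Finite.mem_toFinset, Set.mem_ofPred_eq, Finset.mem_range,
      Bool.and_eq_true]
    constructor
    · rintro ⟨h1, h2⟩
      have := hM s (by simpa using h1)
      exact ⟨by omega, h2, h1⟩
    · rintro ⟨-, h2, h1⟩
      exact ⟨h1, h2⟩
  refine (Set.ncard_le_ncard hsub ((Finset.finite_toSet _).image _)).trans ?_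
  refine (Set.ncard_image_le (Finset.finite_toSet _)).trans ?_
  rw [Set.ncard_coe_finset, Finset.card_powerset]
  refine Nat.pow_le_pow_right (by norm_num) ?_
  rwa [← Set.ncard_eq_toFinset_card _ h]

theorem evt_card {en : ℕ → ℕ → Bool} (h : ∀ x s s', en x s = true → en x s' = true → s = s')
    (b : ℕ) : {s | evt en b s = true}.ncard ≤ b + 1 := by
  classical
  let g : ℕ → ℕ := fun x => if h : ∃ s, en x s = true then h.choose else 0
  have hsub : {s | evt en b s = true} ⊆ g '' Set.Iic b := by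
    intro s hs
    obtain ⟨x, hx, h1⟩ := (evt_iff en b s).1 hs
    refine ⟨x, hx, ?_⟩
    have h2 : ∃ s, en x s = true := ⟨s, h1⟩
    simp only [g, dif_pos h2]
    exact h x _ _ h2.choose_spec h1
  refine (Set.ncard_le_ncard hsub ((Set.finite_Iic b).image _)).trans ?_
  refine (Set.ncard_image_le (Set.finite_Iic b)).trans ?_
  rw [← Finset.coe_Iic, Set.ncard_coe_finset]
  simp

/-- `M` is the presentation over `N0` coding the enumeration `en`. -/
def GoodE (N0 : Pres) (en : ℕ → ℕ → Bool) (M : Pres) : Prop :=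
  ∃ (j : M.Y → N0.Y × ℝ), CI ∅ (fun p : ℕ × ℕ => en p.1 p.2) ∧
    (∀ x s s', en x s = true → en x s' = true → s = s') ∧
    (∀ x y, dist x y = dist (j x) (j y)) ∧
    (∀ u, j (M.c u) = (N0.c u.unpair.1, hh (evt en) u.unpair.1 u.unpair.2)) ∧
    ∀ y, (j y).2 = 0 ∨ ∃ b m, j y = (N0.c b, hh (evt en) b m)

/-- the bounding function -/
def gg (β : ℕ → ℕ) (x : ℕ) : ℕ := x + ((List.range (2 ^ (x + 1) + 1)).map β).sum

theorem gg_eq (β : ℕ → ℕ) (x : ℕ) : gg β x = x + ∑ t ∈ Finset.range (2 ^ (x + 1) + 1), β t := by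
  unfold gg
  congr 1

theorem gg_mono (β : ℕ → ℕ) : Monotone (gg β) := fun x y h => by
  rw [gg_eq, gg_eq]
  refine add_le_add h (Finset.sum_le_sum_of_subset (Finset.range_mono ?_))
  have := Nat.pow_le_pow_right (n := 2) (by norm_num) (show x + 1 ≤ y + 1 by omega)
  omega

theorem le_gg (β : ℕ → ℕ) {x t : ℕ} (h : t ≤ 2 ^ (x + 1)) : β t ≤ gg β x := by
  rw [gg_eq]
  have := Finset.single_le_sum (f := β) (fun _ _ => Nat.zero_le _)
    (Finset.mem_range.2 (show t < 2 ^ (x + 1) + 1 by omega))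
  omega

theorem ci_gg {β : ℕ → ℕ} (hβ : CI ∅ β) : CI ∅ (gg β) := by unfold gg; fun_prop

theorem dom {N0 : Pres} (hi : Function.Injective N0.c) {β : ℕ → ℕ} (hβ : CI ∅ β)
    (hβi : Function.Injective β)
    (iso : ∀ t y, dist y (N0.c (β t)) < 1 / 2 ^ (t + 1) → y = N0.c (β t))
    {en en' : ℕ → ℕ → Bool}
    {M N : Pres} (hM : GoodE N0 en M) (hN : GoodE N0 en' N)
    (f : M.Y → N.Y) (hf : Function.Bijective f) (hc : Commit M N f) :
    ∃ Ψ : ℕ → ℕ → ℕ, CI ∅ (fun p : ℕ × ℕ => Ψ p.1 p.2) ∧ ∀ x m,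
      (∀ s, evt en' (gg β x) s = true → s < m) → ∀ s, evt en x s = true → s < Ψ x m := by
  classical
  obtain ⟨j, e0, e2, m1, m2, m3⟩ := hM
  obtain ⟨j', e0', e2', n1, n2, n3⟩ := hN
  obtain ⟨ok, ci, ck, cj, cl, c1, c2, c3, c4, c5, c6, c7⟩ := hc
  have jinj : Function.Injective j' := fun x y e => by
    rw [← dist_eq_zero, n1, e, dist_self]
  have jinj0 : Function.Injective j := fun x y e => by
    rw [← dist_eq_zero, m1, e, dist_self]
  let R : ℕ × ℕ → ℕ := fun t => t.2 + β t.1 + t.1 + 2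
  have hR : CI ∅ R := by fun_prop
  have hq : ∀ t, j' (N.c (Nat.pair (β t) 0)) = (N0.c (β t), 0) := fun t => by
    rw [n2, Nat.unpair_pair, hh_zero]
  have isoq : ∀ t m, (∀ s, evt en' (β t) s = true → s < m) → ∀ y,
      dist y (N.c (Nat.pair (β t) 0)) < 1 / 2 ^ R (t, m) → y = N.c (Nat.pair (β t) 0) := by
    intro t m' κ1 y hy
    refine jinj ?_
    rw [n1, hq, Prod.dist_eq, max_lt_iff] at hy
    have h1 := iso t _ (hy.1.trans_le (inv2_le (by simp only [R]; omega)))
    rw [hq]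
    refine Prod.ext h1 ?_
    rcases n3 y with h | ⟨b, m, h⟩
    · exact h
    have hb : b = β t := hi (by rw [← h1, h])
    subst hb
    rcases hh_pos (evt en') (β t) m with h2 | ⟨s, h2, h3⟩
    · rw [h]; exact h2
    have h4 := κ1 s h2
    have h5 := hy.2
    rw [h, Real.dist_eq] at h5
    simp only [sub_zero] at h5
    have h6 := le_abs_self (hh (evt en') (β t) m)
    have h7 : (1 : ℝ) / 2 ^ R (t, m') ≤ 1 / 2 ^ (s + β t + 1) := inv2_le (by simp only [R]; omega)
    linarith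
  obtain ⟨T, hT, T1, T2⟩ := (N.cr (f := fun p : ℕ × ℕ × ℕ => p.1)
    (g := fun p => p.2.1) (by fun_prop) (by fun_prop)).test (k := fun p => p.2.2) (by fun_prop)
  obtain ⟨F, hF, F1⟩ := CI.exists_choice (O := ∅) (p := fun (t : ℕ × ℕ) (n : ℕ) =>
    ok n && decide (cl n = R t + 3) && T (cj n, Nat.pair (β t.1) 0, R t + 3)) (by fun_prop)
    fun t => by
      obtain ⟨x, hx⟩ := hf.2 (N.c (Nat.pair (β t.1) 0))
      obtain ⟨n, h1, h2, h3⟩ := c7 x (R t + 3)
      refine ⟨n, ?_⟩
      have h4 := c6 n h1 x (h3.le.trans (inv2_le (by omega)))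
      rw [hx, h2, dist_comm] at h4
      simp [h1, h2, T2 (cj n, Nat.pair (β t.1) 0, R t + 3) h4]
  simp only [Bool.and_eq_true, decide_eq_true_eq] at F1
  have key : ∀ t m, (∀ s, evt en' (β t) s = true → s < m) →
      ∀ x, dist x (M.c (ci (F (t, m)))) ≤ 1 / 2 ^ ck (F (t, m)) →
      f x = N.c (Nat.pair (β t) 0) := by
    intro t m κ1 x hx
    have h1 := c6 _ (F1 (t, m)).1.1 x hx
    rw [(F1 (t, m)).1.2] at h1
    have h2 := T1 _ (F1 (t, m)).2
    refine isoq t m κ1 _ ?_
    have h3 : (1 : ℝ) / 2 ^ R (t, m) = 8 * (1 / 2 ^ (R (t, m) + 3)) := by field_simp; ring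
    have h4 : (3 : ℝ) / 2 ^ (R (t, m) + 3) = 3 * (1 / 2 ^ (R (t, m) + 3)) := by ring
    have h0 : (0 : ℝ) < 1 / 2 ^ (R (t, m) + 3) := by positivity
    simp only at h2
    linarith [dist_triangle (f x) (N.c (cj (F (t, m)))) (N.c (Nat.pair (β t) 0))]
  refine ⟨fun x m => ((List.range (2 ^ (x + 1) + 1)).map fun t => ck (F (t, m))).sum, by fun_prop,
    fun x m hm s hs => ?_⟩
  have κ1 : ∀ t, t ≤ 2 ^ (x + 1) → ∀ s, evt en' (β t) s = true → s < m := fun t ht s h =>
    hm s (evt_mono (le_gg β ht) h)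
  have fy : ∀ t, t ≤ 2 ^ (x + 1) → f (M.c (ci (F (t, m)))) = N.c (Nat.pair (β t) 0) := fun t ht =>
    key t m (κ1 t ht) _ (by rw [dist_self]; positivity)
  have dec : ∀ t, t ≤ 2 ^ (x + 1) → ∀ s, evt en (ci (F (t, m))).unpair.1 s = true →
      s < ck (F (t, m)) := by
    intro t ht s hs
    by_contra hlt
    have h1 : dist (M.c (Nat.pair (ci (F (t, m))).unpair.1 ((ci (F (t, m))).unpair.2 ^^^ 2 ^ s)))
        (M.c (ci (F (t, m)))) = 1 / 2 ^ (s + (ci (F (t, m))).unpair.1 + 1) := by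
      rw [m1, m2, m2, Prod.dist_eq]
      simp only [Nat.unpair_pair, dist_self, Real.dist_eq]
      rw [hh_toggle _ _ _ _ hs]
      exact max_eq_right (by positivity)
    have h2 := key t m (κ1 t ht) _ (h1.le.trans (inv2_le (by omega)))
    have h3 := hf.1 (h2.trans (fy t ht).symm)
    rw [h3, dist_self] at h1
    have h0 : (0 : ℝ) < 1 / 2 ^ (s + (ci (F (t, m))).unpair.1 + 1) := by positivity
    linarith
  obtain ⟨t, ht, hxt⟩ : ∃ t ≤ 2 ^ (x + 1), x ≤ (ci (F (t, m))).unpair.1 := by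
    by_contra hcon
    push Not at hcon
    let B : Finset (N0.Y × ℝ) := (Finset.range x).biUnion fun b =>
      ((hh_fin (evt en) b (evt_fin e2 b)).toFinset.image fun r => (N0.c b, r))
    have hB : B.card ≤ ∑ b ∈ Finset.range x, 2 ^ (b + 1) := by
      refine Finset.card_biUnion_le.trans (Finset.sum_le_sum fun b _ => ?_)
      refine Finset.card_image_le.trans ?_
      rw [← Set.ncard_eq_toFinset_card _ (hh_fin (evt en) b (evt_fin e2 b))]
      exact hh_card _ _ _ (evt_fin e2 b) (evt_card e2 b)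
    have hs : ∀ x : ℕ, ∑ b ∈ Finset.range x, 2 ^ (b + 1) + 2 = 2 ^ (x + 1) := by
      intro x
      induction x with
      | zero => simp
      | succ x ih => rw [Finset.sum_range_succ, pow_succ 2 (x + 1)]; omega
    have hle := Finset.card_le_card_of_injOn (s := Finset.range (2 ^ (x + 1) + 1)) (t := B)
      (fun t => j (M.c (ci (F (t, m))))) (fun t ht => by
        have ht' : t ≤ 2 ^ (x + 1) := by simpa [Nat.lt_succ_iff] using ht
        refine Finset.mem_coe.2 (Finset.mem_biUnion.2 ⟨(ci (F (t, m))).unpair.1,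
          Finset.mem_range.2 (hcon t ht'), Finset.mem_image.2 ⟨_, ?_, (m2 _).symm⟩⟩)
        simp) (fun s hs t ht h => by
        have hs' : s ≤ 2 ^ (x + 1) := by simpa [Nat.lt_succ_iff] using hs
        have ht' : t ≤ 2 ^ (x + 1) := by simpa [Nat.lt_succ_iff] using ht
        have h1 : N.c (Nat.pair (β s) 0) = N.c (Nat.pair (β t) 0) := by
          rw [← fy s hs', ← fy t ht', jinj0 h]
        have h2 := congrArg (fun z => (j' z).1) h1
        simp only [hq] at h2
        exact hβi (hi h2))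
    rw [Finset.card_range] at hle
    have := hs x
    omega
  have h1 := dec t ht s (evt_mono hxt hs)
  refine h1.trans_le (List.single_le_sum (fun _ _ => Nat.zero_le _) _ ?_)
  exact List.mem_map.2 ⟨t, List.mem_range.2 (by omega), rfl⟩

end Pool.Agent.KS6_32.TC
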