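import Mathlib
import Pool.Agent.KS6_32.TC.Dom

/-! Sparser and sparser versions of the halting problem; infinitely many presentations. -/

set_option autoImplicit false

namespace Pool.Agent.KS6_32.TC

open Pool.Agent.H37 Pool.Agent.H83.Tcc Filter Topology

/-- the number `z` has entered the halting problem before stage `n` -/
def ent (z n : ℕ) : Bool := (E z.unpair.1 z.unpair.2 n).isSome

theorem ci_ent {α : Type} [Primcodable α] {f g : α → ℕ} (hf : CI ∅ f) (hg : CI ∅ g) :
    CI ∅ fun a => ent (f a) (g a) := by unfold ent; fun_prop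

theorem ent_mono {z n n' : ℕ} (h : ent z n = true) (hn : n ≤ n') : ent z n' = true := by
  obtain ⟨v, hv⟩ := Option.isSome_iff_exists.1 h
  exact Option.isSome_iff_exists.2 ⟨v, E_mono hv hn⟩

theorem ent_zero (z : ℕ) : ent z 0 = false := by simp [ent, E, Nat.Partrec.Code.evaln]

/-- the number `z` enters at stage `s` -/
def enK (z s : ℕ) : Bool := ent z (s + 1) && !ent z s

theorem enK_iff (z s : ℕ) : enK z s = true ↔ ent z (s + 1) = true ∧ ent z s = false := by
  simp [enK]

theorem ci_enK {α : Type} [Primcodable α] {f g : α → ℕ} (hf : CI ∅ f) (hg : CI ∅ g) :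
    CI ∅ fun a => enK (f a) (g a) := by
  unfold enK
  exact CI.and (ci_ent hf (by fun_prop)) (CI.not (ci_ent hf hg))

theorem enK_unique (z s s' : ℕ) (h : enK z s = true) (h' : enK z s' = true) : s = s' := by
  rw [enK_iff] at h h'
  rcases lt_trichotomy s s' with k | k | k
  · rw [ent_mono h.1 k] at h'; exact absurd h'.2 (by simp)
  · exact k
  · rw [ent_mono h'.1 k] at h; exact absurd h.2 (by simp)

theorem exists_enK {z n : ℕ} (h : ent z n = true) : ∃ s, enK z s = true := by
  classical
  have h3 : ∃ n, ent z n = true := ⟨n, h⟩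
  have h4 := Nat.find_spec h3
  rcases hk : Nat.find h3 with _ | k
  · rw [hk, ent_zero] at h4; exact absurd h4 (by simp)
  · rw [hk] at h4
    have h5 := Nat.find_min h3 (m := k) (by omega)
    exact ⟨k, (enK_iff z k).2 ⟨h4, by simpa using h5⟩⟩

/-- the stage before which `z` has entered, `0` if it has not -/
def st (z n : ℕ) : ℕ := ((List.range (n + 1)).find? fun n' => ent z n').getD 0

theorem ci_st {α : Type} [Primcodable α] {f g : α → ℕ} (hf : CI ∅ f) (hg : CI ∅ g) :
    CI ∅ fun a => st (f a) (g a) := by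
  unfold st
  have : CI ∅ fun p : α × ℕ => ent (f p.1) p.2 := ci_ent (by fun_prop) (by fun_prop)
  fun_prop

theorem st_eq {z s n : ℕ} (h : enK z s = true) (hn : ent z n = true) : st z n = s + 1 := by
  rw [enK_iff] at h
  have hlt : s < n := by
    by_contra hlt
    rw [ent_mono hn (not_lt.1 hlt)] at h
    exact absurd h.2 (by simp)
  have : (List.range (n + 1)).find? (fun n' => ent z n') = some (s + 1) := by
    rw [List.find?_range_eq_some]
    refine ⟨h.1, List.mem_range.2 (by omega), fun j hj => ?_⟩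
    have : ent z j = false := by
      cases hj' : ent z j
      · rfl
      · rw [ent_mono hj' (show j ≤ s by omega)] at h
        exact absurd h.2 (by simp)
    simp [this]
  rw [st, this, Option.getD_some]

theorem st_none {z : ℕ} (h : ∀ n, ent z n = false) (n : ℕ) : st z n = 0 := by
  have : (List.range (n + 1)).find? (fun n' => ent z n') = none := by
    rw [List.find?_eq_none]
    intro x _
    simp [h x]
  rw [st, this, Option.getD_none]

variable (β : ℕ → ℕ)

/-- the sparse codings -/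
def phi : ℕ → ℕ → ℕ
  | 0 => fun z => z
  | j + 1 => fun z => ((List.range (z + 1)).map fun z' =>
      gg β (phi j (Nat.pair (z' + 1) (z' + 1))) + 1).sum

theorem ci_phi (hβ : CI ∅ β) : ∀ j, CI ∅ (phi β j)
  | 0 => by unfold phi; fun_prop
  | j + 1 => by
    have h1 := ci_phi hβ j
    have h2 := ci_gg hβ
    unfold phi
    fun_prop

theorem phi_succ (j z : ℕ) : phi β (j + 1) z =
    ∑ z' ∈ Finset.range (z + 1), (gg β (phi β j (Nat.pair (z' + 1) (z' + 1))) + 1) := rfl

theorem phi_strictMono : ∀ j, StrictMono (phi β j)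
  | 0 => fun a b h => h
  | j + 1 => strictMono_nat_of_lt_succ fun z => by
    rw [phi_succ, phi_succ β j (z + 1), Finset.sum_range_succ _ (z + 1)]
    omega

theorem le_phi (j z : ℕ) : z ≤ phi β j z := (phi_strictMono β j).le_apply

theorem phi_lt (j z : ℕ) : gg β (phi β j (Nat.pair (z + 1) (z + 1))) < phi β (j + 1) z := by
  rw [phi_succ, Finset.sum_range_succ]
  omega

theorem le_gg_self (x : ℕ) : x ≤ gg β x := by rw [gg_eq]; omega

theorem phi_step (j z : ℕ) : phi β j z ≤ phi β (j + 1) z :=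
  ((phi_strictMono β j).monotone ((Nat.le_succ z).trans (Nat.left_le_pair _ _))).trans
    ((le_gg_self β _).trans (phi_lt β j z).le)

theorem phi_le_of_le {i j : ℕ} (h : i ≤ j) (z : ℕ) : phi β i z ≤ phi β j z := by
  induction j, h using Nat.le_induction with
  | base => exact le_rfl
  | succ j h ih => exact ih.trans (phi_step β j z)

theorem phi_lt' {i j : ℕ} (h : i < j) (z : ℕ) :
    gg β (phi β i (Nat.pair (z + 1) (z + 1))) < phi β j z :=
  (phi_lt β i z).trans_le (phi_le_of_le β h z)

/-- the enumeration of the `j`-th sparse version of the halting problem -/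
def enj (j y s : ℕ) : Bool := (List.range (y + 1)).any fun z => decide (phi β j z = y) && enK z s

theorem ci_enj (hβ : CI ∅ β) (j : ℕ) : CI ∅ fun p : ℕ × ℕ => enj β j p.1 p.2 := by
  unfold enj
  have h1 := ci_phi β hβ j
  have h2 : CI ∅ fun q : (ℕ × ℕ) × ℕ => enK q.2 q.1.2 := ci_enK (by fun_prop) (by fun_prop)
  fun_prop

theorem enj_iff (j y s : ℕ) : enj β j y s = true ↔ ∃ z, phi β j z = y ∧ enK z s = true := by
  simp only [enj, List.any_eq_true, List.mem_range, Bool.and_eq_true, decide_eq_true_eq]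
  constructor
  · rintro ⟨z, -, h1, h2⟩
    exact ⟨z, h1, h2⟩
  · rintro ⟨z, h1, h2⟩
    have := le_phi β j z
    exact ⟨z, by omega, h1, h2⟩

theorem enj_unique (j x s s' : ℕ) (h : enj β j x s = true) (h' : enj β j x s' = true) : s = s' := by
  obtain ⟨z, h1, h2⟩ := (enj_iff β j x s).1 h
  obtain ⟨z', h3, h4⟩ := (enj_iff β j x s').1 h'
  obtain rfl := (phi_strictMono β j).injective (h1.trans h3.symm)
  exact enK_unique z s s' h2 h4

theorem evt_enj (j b s : ℕ) : evt (enj β j) b s = true ↔
    ∃ z, phi β j z ≤ b ∧ enK z s = true := by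
  rw [evt_iff]
  constructor
  · rintro ⟨x, hx, h⟩
    obtain ⟨z, rfl, h2⟩ := (enj_iff β j x s).1 h
    exact ⟨z, hx, h2⟩
  · rintro ⟨z, hz, h⟩
    exact ⟨_, hz, (enj_iff β j _ s).2 ⟨z, rfl, h⟩⟩

theorem countP_eq {L : List ℕ} {p q : ℕ → Bool} (h : ∀ x ∈ L, p x = true → q x = true)
    (hc : L.countP q ≤ L.countP p) : ∀ x ∈ L, q x = true → p x = true := by
  induction L with
  | nil => simp
  | cons a L ih =>
    have h1 : L.countP p ≤ L.countP q := List.countP_mono_left fun x hx => h x (by simp [hx])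
    rw [List.countP_cons, List.countP_cons] at hc
    have h2 := h a (by simp)
    intro x hx hq
    rcases List.mem_cons.1 hx with rfl | hx
    · by_contra hp
      simp only [hq, if_true] at hc
      rw [if_neg hp] at hc
      omega
    · refine ih (fun x hx => h x (by simp [hx])) ?_ x hx hq
      by_cases hp : p a = true
      · simp only [hp, h2 hp, if_true] at hc; omega
      · rw [if_neg hp] at hc
        split_ifs at hc <;> omega

theorem pair_mono {a a' b b' : ℕ} (ha : a ≤ a') (hb : b ≤ b') : Nat.pair a b ≤ Nat.pair a' b' := by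
  have h1 : Nat.pair a b ≤ Nat.pair a' b := by
    rcases ha.eq_or_lt with rfl | h
    · exact le_rfl
    · exact (Nat.pair_lt_pair_left b h).le
  have h2 : Nat.pair a' b ≤ Nat.pair a' b' := by
    rcases hb.eq_or_lt with rfl | h
    · exact le_rfl
    · exact (Nat.pair_lt_pair_right a' h).le
  exact h1.trans h2

theorem noDom (hβ : CI ∅ β) {i j : ℕ} (hij : i < j) (Ψ : ℕ → ℕ → ℕ)
    (hΨ : CI ∅ fun p : ℕ × ℕ => Ψ p.1 p.2)
    (h : ∀ x m, (∀ s, evt (enj β j) (gg β x) s = true → s < m) →
      ∀ s, evt (enj β i) x s = true → s < Ψ x m) : False := by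
  classical
  have hphi := ci_phi β hβ
  have hgg := ci_gg hβ
  have hpi := hphi i
  have hpj := hphi j
  let x : ℕ → ℕ := fun e => phi β i (phi β j e)
  let Y : ℕ → ℕ := fun e => gg β (x e)
  let L : ℕ → List ℕ := fun e => (List.range (Y e + 1)).filter fun z => decide (phi β j z ≤ Y e)
  let cnt : ℕ → ℕ → ℕ := fun e n => (L e).countP fun z => ent z n
  let mm : ℕ → ℕ → ℕ := fun e n => ((L e).map fun z => st z n).sum
  have hx : CI ∅ x := by fun_prop
  have hY : CI ∅ Y := by fun_prop
  have hL : CI ∅ L := by fun_prop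
  have hL' : CI ∅ fun q : ℕ × ℕ × ℕ => L q.1 := hL.comp (g := fun q : ℕ × ℕ × ℕ => q.1) (by fun_prop)
  have hcnt : CI ∅ fun q : ℕ × ℕ × ℕ => cnt q.1 q.2.2 := by
    have h1 : CI ∅ fun q : (ℕ × ℕ × ℕ) × ℕ => ent q.2 q.1.2.2 := ci_ent (by fun_prop) (by fun_prop)
    exact CI.countP (f := fun (q : ℕ × ℕ × ℕ) z => ent z q.2.2) h1 hL'
  have hmm : CI ∅ fun q : ℕ × ℕ × ℕ => mm q.1 q.2.2 := by
    have h1 : CI ∅ fun q : (ℕ × ℕ × ℕ) × ℕ => st q.2 q.1.2.2 := ci_st (by fun_prop) (by fun_prop)
    exact CI.sum (CI.map (f := fun (q : ℕ × ℕ × ℕ) z => st z q.2.2) h1 hL')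
  have hx' : CI ∅ fun q : ℕ × ℕ × ℕ => x q.1 := hx.comp (g := fun q : ℕ × ℕ × ℕ => q.1) (by fun_prop)
  have hΨ' : CI ∅ fun q : ℕ × ℕ × ℕ => Ψ (x q.1) (mm q.1 q.2.2) :=
    hΨ.comp (g := fun q : ℕ × ℕ × ℕ => (x q.1, mm q.1 q.2.2)) (CI.mk hx' hmm)
  obtain ⟨e, he⟩ := diag (fun e k n => cond ((!(E e k n).isSome) && decide (k ≤ cnt e n) &&
      decide (Ψ (x e) (mm e n) ≤ n)) (some 0) none)
    (CI.cond (CI.and (CI.and (by fun_prop) (CI.le (by fun_prop) hcnt))
      (CI.le hΨ' (by fun_prop))) (by fun_prop) (by fun_prop))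
  set c : ℕ := (L e).countP fun z => decide (∃ n, ent z n = true) with hcdef
  have memL : ∀ z, z ∈ L e ↔ phi β j z ≤ Y e := fun z => by
    simp only [L, List.mem_filter, List.mem_range, decide_eq_true_eq]
    have := le_phi β j z
    omega
  have eL : e ∈ L e := (memL e).2 ((le_phi β i _).trans (le_gg_self β _))
  have hlt : ∀ z ∈ L e, Nat.pair (z + 1) (z + 1) < phi β j e := by
    intro z hz
    by_contra hcon
    have h1 := gg_mono β ((phi_strictMono β i).monotone (not_lt.1 hcon))
    have h2 := phi_lt' β hij z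
    have h3 := (memL z).1 hz
    simp only [Y, x] at h3
    omega
  have hlen : ∃ z ∈ L e, e ≤ z ∧ (L e).length ≤ z + 1 := by
    obtain ⟨z, hz, hmax⟩ := Finset.exists_max_image (L e).toFinset (fun z => z)
      ⟨e, List.mem_toFinset.2 eL⟩
    refine ⟨z, List.mem_toFinset.1 hz, hmax e (List.mem_toFinset.2 eL), ?_⟩
    have hnd : (L e).Nodup := (List.nodup_range).filter _
    rw [← List.toFinset_card_of_nodup hnd, ← Finset.card_range (z + 1)]
    refine Finset.card_le_card fun y hy => Finset.mem_range.2 (Nat.lt_succ_of_le (hmax y hy))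
  have hc : Nat.pair e c ≤ phi β j e := by
    obtain ⟨z, hz, h1, h2⟩ := hlen
    refine (pair_mono (by omega) ?_).trans (hlt z hz).le
    exact (List.countP_le_length).trans h2
  have claimC : ∀ n, c ≤ cnt e n → ∀ z ∈ L e, (∃ n', ent z n' = true) → ent z n = true := by
    intro n hn z hz hex
    exact countP_eq (p := fun z => ent z n) (q := fun z => decide (∃ n, ent z n = true))
      (fun z _ h1 => decide_eq_true ⟨n, h1⟩) hn z hz (decide_eq_true hex)
  have hz : (Nat.pair e c).unpair = (e, c) := Nat.unpair_pair _ _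
  by_cases hent : ∃ n, ent (Nat.pair e c) n = true
  · obtain ⟨n1, hn1⟩ := hent
    have hn1' := hn1
    simp only [ent, hz] at hn1
    obtain ⟨v, hv⟩ := Option.isSome_iff_exists.1 hn1
    obtain ⟨n', hn'⟩ := (he c).1 n1 v hv
    rw [Bool.cond_eq_ite] at hn'
    split_ifs at hn' with hcond
    simp only [Bool.and_eq_true, Bool.not_eq_true', decide_eq_true_eq] at hcond
    obtain ⟨⟨d1, d2⟩, d3⟩ := hcond
    obtain ⟨s, hs⟩ := exists_enK hn1'
    have h1 : s < Ψ (x e) (mm e n') := by
      refine h (x e) (mm e n') (fun s' hs' => ?_) s ((evt_enj β i _ s).2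
        ⟨_, (phi_strictMono β i).monotone hc, hs⟩)
      obtain ⟨z, hz1, hz2⟩ := (evt_enj β j _ s').1 hs'
      have hzL : z ∈ L e := (memL z).2 hz1
      have h3 := claimC n' d2 z hzL ⟨_, ((enK_iff z s').1 hz2).1⟩
      have h4 := st_eq hz2 h3
      have h5 : st z n' ≤ mm e n' := List.single_le_sum (fun _ _ => Nat.zero_le _) _
        (List.mem_map.2 ⟨z, hzL, rfl⟩)
      omega
    have h2 := ((enK_iff _ s).1 hs).1
    have h3 : ent (Nat.pair e c) n' = true := ent_mono h2 (by omega)
    simp only [ent, hz] at h3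
    rw [h3] at d1
    exact absurd d1 (by simp)
  · push Not at hent
    have hent' : ∀ n, (E e c n).isSome = false := fun n => by
      have := hent n
      simpa [ent, hz] using this
    -- stabilisation
    let nz : ℕ → ℕ := fun z => if h : ∃ n, ent z n = true then h.choose else 0
    let n0 : ℕ := ((L e).map nz).sum
    have hn0 : ∀ z ∈ L e, (∃ n, ent z n = true) → ∀ n, n0 ≤ n → ent z n = true := by
      intro z hz hex n hn
      have h5 : nz z ≤ n0 := List.single_le_sum (fun _ _ => Nat.zero_le _) _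
        (List.mem_map.2 ⟨z, hz, rfl⟩)
      have h6 : ent z (nz z) = true := by
        simp only [nz, dif_pos hex]; exact hex.choose_spec
      exact ent_mono h6 (h5.trans hn)
    have hmm0 : ∀ n, n0 ≤ n → mm e n = mm e n0 := by
      intro n hn
      simp only [mm]
      congr 1
      refine List.map_congr_left fun z hz => ?_
      by_cases hex : ∃ n, ent z n = true
      · obtain ⟨s, hs⟩ := exists_enK hex.choose_spec
        rw [st_eq hs (hn0 z hz hex n hn), st_eq hs (hn0 z hz hex n0 le_rfl)]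
      · have h7 : ∀ n, ent z n = false := fun n => by
          cases h8 : ent z n
          · rfl
          · exact absurd ⟨n, h8⟩ hex
        rw [st_none h7, st_none h7]
    have hcnt0 : ∀ n, n0 ≤ n → c ≤ cnt e n := fun n hn =>
      List.countP_mono_left fun z hz h9 => hn0 z hz (of_decide_eq_true h9) n hn
    set n := max n0 (Ψ (x e) (mm e n0)) with hn
    have h10 : cond ((!(E e c n).isSome) && decide (c ≤ cnt e n) &&
        decide (Ψ (x e) (mm e n) ≤ n)) (some 0) none = some 0 := by
      rw [hent' n, decide_eq_true (hcnt0 n (le_max_left _ _)), hmm0 n (le_max_left _ _),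
        decide_eq_true (le_max_right _ _)]
      rfl
    obtain ⟨n', v', h11⟩ := (he c).2 n 0 h10
    have := hent' n'
    rw [h11] at this
    exact absurd this (by simp)

/-- Infinitely many presentations, the case of dense isolated points. -/
theorem caseA_seq (P : Pres) (hi : Function.Injective P.c) [Infinite P.Y]
    (hden : DenseIsolated P.Y) :
    ∃ M : ℕ → Pres, (∀ n, Nonempty ((M n).Y ≃ₜ P.Y)) ∧ ∀ i j, i < j →
      ∀ f : (M i).Y → (M j).Y, Function.Bijective f → ¬ Commit (M i) (M j) f := by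
  obtain ⟨N0, β, hi0, ⟨hN0⟩, hβ, hβi, iso⟩ := base P hi hden.metric
  have : Infinite N0.Y := hN0.toEquiv.infinite_iff.2 ‹_›
  have hex : ∀ n, ∃ M : Pres, Nonempty (M.Y ≃ₜ P.Y) ∧ GoodE N0 (enj β n) M := fun n => by
    obtain ⟨Q, j, ⟨hQ⟩, q1, q2, q3⟩ := fib N0 hi0 (hden.homeo hN0.symm).metric (evt (enj β n))
      (ci_evt (ci_enj β hβ n)) (evt_fin (enj_unique β n))
    exact ⟨Q, ⟨hQ.trans hN0⟩, j, ci_enj β hβ n, enj_unique β n, q1, q2, q3⟩
  choose M hM1 hM2 using hex
  refine ⟨M, hM1, fun i j hij f hf hc => ?_⟩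
  obtain ⟨Ψ, hΨ, h1⟩ := dom hi0 hβ hβi iso (hM2 i) (hM2 j) f hf hc
  exact noDom β hβ hij Ψ hΨ h1

end Pool.Agent.KS6_32.TC
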